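import Mathlib

set_option autoImplicit false

/-! Two disjoint total dominating sets in subdivisions of multigraphs. -/

namespace Pool.Agent.H84.MC

/-- `S` is a total dominating set of `G`: every vertex of `G` (also those of `S`) has a neighbour
in `S`. -/
def IsTotalDominating {V : Type*} (G : SimpleGraph V) (S : Set V) : Prop :=
  ∀ v, ∃ w ∈ S, G.Adj v w

/-- `G` has two disjoint total dominating sets. -/
def HasTwoDisjointTD {V : Type*} (G : SimpleGraph V) : Prop :=
  ∃ S T : Set V, Disjoint S T ∧ IsTotalDominating G S ∧ IsTotalDominating G T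

/-- The numbers `t` such that adding some `t` edges of the complement of `G` to `G` gives a graph
with two disjoint total dominating sets. -/
def augmentSizes {V : Type*} (G : SimpleGraph V) : Set ℕ :=
  {t | ∃ F : Finset (Sym2 V), (F : Set (Sym2 V)) ⊆ Gᶜ.edgeSet ∧ F.card = t ∧
    HasTwoDisjointTD (G ⊔ SimpleGraph.fromEdgeSet (F : Set (Sym2 V)))}

/-- `td(G)`: the least number of edges of the complement of `G` whose addition to `G` gives a graph
with two disjoint total dominating sets. -/
noncomputable def td {V : Type*} (G : SimpleGraph V) : ℕ := sInf (augmentSizes G)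

/-- The graph obtained from the multigraph with vertex set `B` and edge set `E`, where the ends of
`e` are `a e` and `b e`, by subdividing every edge once: the vertices are those of `B` and the
elements `e` of `E`, and `e` is adjacent to its two ends. -/
def Sd {B E : Type*} (a b : E → B) : SimpleGraph (B ⊕ E) where
  Adj u v := ∃ x e, (x = a e ∨ x = b e) ∧
    ((u = Sum.inl x ∧ v = Sum.inr e) ∨ (u = Sum.inr e ∧ v = Sum.inl x))
  symm := ⟨by
    rintro u v ⟨x, e, h, h' | h'⟩
    · exact ⟨x, e, h, Or.inr ⟨h'.2, h'.1⟩⟩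
    · exact ⟨x, e, h, Or.inl ⟨h'.2, h'.1⟩⟩⟩
  loopless := ⟨by
    rintro u ⟨x, e, h, h' | h'⟩
    · have := h'.1.symm.trans h'.2
      simp at this
    · have := h'.1.symm.trans h'.2
      simp at this⟩

/-- no loops, every edge has a parallel edge, no isolated vertices -/
structure Good {B E : Type*} (a b : E → B) : Prop where
  ne : ∀ e, a e ≠ b e
  par : ∀ e, ∃ e', e' ≠ e ∧ s(a e', b e') = s(a e, b e)
  cov : ∀ x, ∃ e, x = a e ∨ x = b e

/-- the number of edges inside the two sides of the partition given by `f` -/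
def mono {B E : Type*} [Fintype E] (a b : E → B) (f : B → Bool) : ℕ :=
  (Finset.univ.filter fun e => f (a e) = f (b e)).card

/-- the least number of edges inside the two sides of a partition, that is, the number of edges
minus the size of a maximum cut -/
noncomputable def mm {B E : Type*} [Fintype E] (a b : E → B) : ℕ :=
  sInf (Set.range (mono a b))

section
variable {B E : Type*} {a b : E → B}

theorem adj_le {x : B} {e : E} (h : x = a e ∨ x = b e) : (Sd a b).Adj (Sum.inl x) (Sum.inr e) :=
  ⟨x, e, h, Or.inl ⟨rfl, rfl⟩⟩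

theorem adj_re {x : B} {e : E} (h : x = a e ∨ x = b e) : (Sd a b).Adj (Sum.inr e) (Sum.inl x) :=
  ⟨x, e, h, Or.inr ⟨rfl, rfl⟩⟩

theorem nbr_inr {e : E} {w : B ⊕ E} (h : (Sd a b).Adj (Sum.inr e) w) :
    w = Sum.inl (a e) ∨ w = Sum.inl (b e) := by
  obtain ⟨x, e', h1, h2 | h2⟩ := h
  · simp at h2
  · obtain ⟨h3, rfl⟩ := h2
    have := Sum.inr_injective h3
    subst this
    rcases h1 with rfl | rfl
    · exact Or.inl rfl
    · exact Or.inr rfl

theorem not_adj_rr (e e' : E) : ¬ (Sd a b).Adj (Sum.inr e) (Sum.inr e') := by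
  intro h
  rcases nbr_inr h with h | h <;> simp at h

/-- A vertex whose two neighbours are on the same side is an end of an added edge. -/
theorem bad_end {V : Type*} {G : SimpleGraph V} {F : Finset (Sym2 V)} {S T : Set V}
    (hST : Disjoint S T)
    (hS : IsTotalDominating (G ⊔ SimpleGraph.fromEdgeSet (F : Set (Sym2 V))) S)
    (hT : IsTotalDominating (G ⊔ SimpleGraph.fromEdgeSet (F : Set (Sym2 V))) T)
    {x a b : V} (hx : ∀ w, G.Adj x w → w = a ∨ w = b) (hab : a ∈ S ↔ b ∈ S) :
    ∃ e ∈ F, x ∈ e := by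
  have key : ∀ w, (G ⊔ SimpleGraph.fromEdgeSet (F : Set (Sym2 V))).Adj x w → w ≠ a → w ≠ b →
      ∃ e ∈ F, x ∈ e := by
    intro w hw ha hb
    rw [SimpleGraph.sup_adj] at hw
    rcases hw with hw | hw
    · exact absurd (hx w hw) (by rintro (h | h); exacts [ha h, hb h])
    · rw [SimpleGraph.fromEdgeSet_adj] at hw
      exact ⟨s(x, w), by exact_mod_cast hw.1, Sym2.mem_mk_left x w⟩
  by_cases haS : a ∈ S
  · obtain ⟨w, hwT, hw⟩ := hT x
    refine key w hw ?_ ?_
    · rintro rfl
      exact Set.disjoint_left.1 hST haS hwT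
    · rintro rfl
      exact Set.disjoint_left.1 hST (hab.1 haS) hwT
  · obtain ⟨w, hwS, hw⟩ := hS x
    refine key w hw ?_ ?_
    · rintro rfl
      exact haS hwS
    · rintro rfl
      exact haS (hab.2 hwS)

/-- The number of ends of a set of edges is at most twice its size. -/
theorem ends_card {V W : Type*} [Fintype V] [DecidableEq V] (F : Finset (Sym2 V)) (B : Finset W)
    (j : W → V) (hj : Function.Injective j)
    (h : ∀ x ∈ B, ∃ e ∈ F, j x ∈ e) : B.card ≤ 2 * F.card := by
  classical
  rw [← Finset.card_image_of_injective B hj]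
  have hsub : B.image j ⊆ F.biUnion (fun e => Finset.univ.filter (fun x => x ∈ e)) := by
    intro x hx
    obtain ⟨y, hy, rfl⟩ := Finset.mem_image.1 hx
    obtain ⟨e, he, hxe⟩ := h y hy
    rw [Finset.mem_biUnion]
    exact ⟨e, he, Finset.mem_filter.2 ⟨Finset.mem_univ _, hxe⟩⟩
  refine (Finset.card_le_card hsub).trans ?_
  refine (Finset.card_biUnion_le_card_mul F _ 2 ?_).trans (le_of_eq (mul_comm _ _))
  intro e _
  induction e using Sym2.ind with
  | _ a b =>
    have : (Finset.univ.filter (fun x => x ∈ s(a, b))) ⊆ ({a, b} : Finset V) := by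
      intro x hx
      rw [Finset.mem_filter, Sym2.mem_iff] at hx
      rw [Finset.mem_insert, Finset.mem_singleton]
      exact hx.2
    exact (Finset.card_le_card this).trans Finset.card_le_two

variable [Fintype B] [Fintype E]

omit [Fintype B] in
theorem mm_le (f : B → Bool) : mm a b ≤ mono a b f := Nat.sInf_le ⟨f, rfl⟩

omit [Fintype B] in
theorem mm_mem : ∃ f : B → Bool, mono a b f = mm a b :=
  Nat.sInf_mem (s := Set.range (mono a b)) ⟨_, ⟨fun _ => true, rfl⟩⟩

theorem lower {t : ℕ} (ht : t ∈ augmentSizes (Sd a b)) : mm a b ≤ 2 * t := by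
  classical
  obtain ⟨F, _, rfl, S, T, hST, hS, hT⟩ := ht
  refine (mm_le (a := a) (b := b) (fun x => decide (Sum.inl x ∈ S))).trans ?_
  refine ends_card F _ (Sum.inr : E → B ⊕ E) Sum.inr_injective ?_
  intro e he
  rw [Finset.mem_filter, decide_eq_decide] at he
  exact bad_end hST hS hT (fun w hw => nbr_inr hw) he.2

omit [Fintype B] [Fintype E] in
/-- pairing up the elements of `U` -/
theorem pairs [DecidableEq E] [DecidableEq B] (c : E → Bool) (y : E → B) :
    ∀ (n : ℕ) (U : Finset E), U.card = n →
    ∃ (χ : E → Bool) (F : Finset (Sym2 (B ⊕ E))), 2 * F.card ≤ n + 1 ∧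
      (∀ z ∈ F, (∃ e e', e ≠ e' ∧ z = s(Sum.inr e, Sum.inr e')) ∨
        ∃ e ∈ U, z = s(Sum.inr e, Sum.inl (y e))) ∧
      ∀ e ∈ U, (∃ e' ∈ U, s(Sum.inr e, Sum.inr e') ∈ F ∧ e ≠ e' ∧ χ e' = !c e) ∨
        s(Sum.inr e, Sum.inl (y e)) ∈ F := by
  intro n
  induction n using Nat.twoStepInduction with
  | zero =>
    intro U hU
    rw [Finset.card_eq_zero] at hU
    subst hU
    exact ⟨fun _ => true, ∅, by simp, by simp, by simp⟩
  | one =>
    intro U hU
    obtain ⟨e, rfl⟩ := Finset.card_eq_one.1 hU
    refine ⟨fun _ => true, {s(Sum.inr e, Sum.inl (y e))}, by simp, ?_, ?_⟩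
    · intro z hz
      rw [Finset.mem_singleton] at hz
      exact Or.inr ⟨e, Finset.mem_singleton_self e, hz⟩
    · intro e' he'
      rw [Finset.mem_singleton] at he'
      subst he'
      exact Or.inr (Finset.mem_singleton_self _)
  | more n ih _ =>
    intro U hU
    obtain ⟨e1, h1, e2, h2, h12⟩ := Finset.one_lt_card.1 (show 1 < U.card by omega)
    have hc : ((U.erase e1).erase e2).card = n := by
      rw [Finset.card_erase_of_mem (Finset.mem_erase.2 ⟨h12.symm, h2⟩),
        Finset.card_erase_of_mem h1, hU]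
      omega
    obtain ⟨χ, F, k1, k2, k3⟩ := ih _ hc
    have hU' : ∀ e ∈ (U.erase e1).erase e2, e ∈ U ∧ e ≠ e1 ∧ e ≠ e2 := by
      intro e he
      rw [Finset.mem_erase, Finset.mem_erase] at he
      exact ⟨he.2.2, he.2.1, he.1⟩
    refine ⟨fun e => if e = e1 then !c e2 else if e = e2 then !c e1 else χ e,
      insert s(Sum.inr e1, Sum.inr e2) F, ?_, ?_, ?_⟩
    · have := Finset.card_insert_le (s(Sum.inr e1, Sum.inr e2) : Sym2 (B ⊕ E)) F
      omega
    · intro z hz
      rcases Finset.mem_insert.1 hz with rfl | hz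
      · exact Or.inl ⟨e1, e2, h12, rfl⟩
      · rcases k2 z hz with h | ⟨e, he, h⟩
        · exact Or.inl h
        · exact Or.inr ⟨e, (hU' e he).1, h⟩
    · intro e he
      by_cases he1 : e = e1
      · subst he1
        refine Or.inl ⟨e2, h2, Finset.mem_insert_self _ _, h12, ?_⟩
        beta_reduce
        rw [if_neg h12.symm, if_pos rfl]
      · by_cases he2 : e = e2
        · subst he2
          refine Or.inl ⟨e1, h1, ?_, h12.symm, ?_⟩
          · rw [Sym2.eq_swap]
            exact Finset.mem_insert_self _ _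
          · beta_reduce
            rw [if_pos rfl]
        · rcases k3 e (Finset.mem_erase.2 ⟨he2, Finset.mem_erase.2 ⟨he1, he⟩⟩) with h | h
          · obtain ⟨e', a1, a2, a3, a4⟩ := h
            obtain ⟨b1, b2, b3⟩ := hU' e' a1
            refine Or.inl ⟨e', b1, Finset.mem_insert_of_mem a2, a3, ?_⟩
            beta_reduce
            rw [if_neg b2, if_neg b3]
            exact a4
          · exact Or.inr (Finset.mem_insert_of_mem h)

/-- a minimiser has a cut edge at every vertex -/
theorem cut_edge [DecidableEq B] (hG : Good a b) {f : B → Bool} (hf : mono a b f = mm a b)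
    (x : B) : ∃ e, (x = a e ∨ x = b e) ∧ f (a e) ≠ f (b e) := by
  by_contra hcon
  push Not at hcon
  have key : mono a b (Function.update f x (!f x)) < mono a b f := by
    refine Finset.card_lt_card ?_
    rw [Finset.ssubset_iff_subset_ne]
    have h1 : ∀ e, (x = a e ∨ x = b e) →
        Function.update f x (!f x) (a e) ≠ Function.update f x (!f x) (b e) := by
      intro e he
      have h2 := hcon e he
      rcases he with rfl | rfl
      · rw [Function.update_self, Function.update_of_ne (hG.ne e).symm, ← h2]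
        simp
      · rw [Function.update_self, Function.update_of_ne (hG.ne e), h2]
        simp
    refine ⟨?_, ?_⟩
    · intro e he
      rw [Finset.mem_filter] at he ⊢
      refine ⟨he.1, ?_⟩
      have h2 : ¬ (x = a e ∨ x = b e) := fun h => h1 e h he.2
      push Not at h2
      have h3 := he.2
      rw [Function.update_of_ne h2.1.symm, Function.update_of_ne h2.2.symm] at h3
      exact h3
    · intro h
      obtain ⟨e, he⟩ := hG.cov x
      have h3 : e ∈ Finset.univ.filter fun e => f (a e) = f (b e) :=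
        Finset.mem_filter.2 ⟨Finset.mem_univ _, hcon e he⟩
      rw [← h, Finset.mem_filter] at h3
      exact h1 e he h3.2
  rw [hf] at key
  exact absurd (mm_le (a := a) (b := b) (Function.update f x (!f x))) (not_le.2 key)

theorem upper (hG : Good a b) :
    ∃ t ∈ augmentSizes (Sd a b), 2 * t ≤ mm a b + 1 := by
  classical
  obtain ⟨f, hf⟩ := mm_mem (a := a) (b := b)
  have hcut := cut_edge hG hf
  -- a vertex on the other side
  have hy : ∀ e, ∃ y, f y ≠ f (a e) := by
    intro e
    obtain ⟨e', _, h⟩ := hcut (a e)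
    by_cases h1 : f (a e') = f (a e)
    · exact ⟨b e', fun h2 => h (h1.trans h2.symm)⟩
    · exact ⟨a e', h1⟩
  choose y hy using hy
  obtain ⟨χ, F, k1, k2, k3⟩ := pairs (fun e => f (a e)) y _
    (Finset.univ.filter fun e => f (a e) = f (b e)) rfl
  -- representatives of the parallel classes
  obtain ⟨r, hr1, hr2⟩ : ∃ r : E → E, (∀ e, s(a (r e), b (r e)) = s(a e, b e)) ∧
      ∀ e e', s(a e, b e) = s(a e', b e') → r e = r e' := by
    refine ⟨fun e => (⟨e, rfl⟩ : ∃ e', s(a e', b e') = s(a e, b e)).choose,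
      fun e => (⟨e, rfl⟩ : ∃ e', s(a e', b e') = s(a e, b e)).choose_spec, fun e e' h => ?_⟩
    have : ∀ (z z' : Sym2 B) (h1 : ∃ e, s(a e, b e) = z) (h2 : ∃ e, s(a e, b e) = z'), z = z' →
        h1.choose = h2.choose := by
      rintro z _ h1 h2 rfl
      rfl
    exact this _ _ _ _ h
  let col : B ⊕ E → Bool := fun v => Sum.elim f
    (fun e => if f (a e) = f (b e) then χ e else decide (r e = e)) v
  have hcl : ∀ x, col (Sum.inl x) = f x := fun x => rfl
  have hcr : ∀ e, col (Sum.inr e) = if f (a e) = f (b e) then χ e else decide (r e = e) :=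
    fun e => rfl
  have hF : ∀ z ∈ F, z ∈ (Sd a b)ᶜ.edgeSet := by
    intro z hz
    rcases k2 z hz with ⟨e, e', h, rfl⟩ | ⟨e, he, rfl⟩
    · rw [SimpleGraph.mem_edgeSet, SimpleGraph.compl_adj]
      exact ⟨fun h' => h (Sum.inr_injective h'), not_adj_rr e e'⟩
    · rw [SimpleGraph.mem_edgeSet, SimpleGraph.compl_adj]
      refine ⟨Sum.inr_ne_inl, fun h => ?_⟩
      rw [Finset.mem_filter] at he
      rcases nbr_inr h with h | h
      · exact hy e (congrArg f (Sum.inl_injective h))
      · exact hy e ((congrArg f (Sum.inl_injective h)).trans he.2.symm)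
  have hmain : ∀ (v : B ⊕ E) (c : Bool), ∃ w, col w = c ∧
      (Sd a b ⊔ SimpleGraph.fromEdgeSet (F : Set (Sym2 (B ⊕ E)))).Adj v w := by
    intro v c
    rcases v with x | e
    · obtain ⟨e, he, hc⟩ := hcut x
      have hends : ∀ e', s(a e', b e') = s(a e, b e) → (x = a e' ∨ x = b e') ∧
          f (a e') ≠ f (b e') := by
        intro e' h
        rw [Sym2.eq_iff] at h
        rcases h with ⟨h1, h2⟩ | ⟨h1, h2⟩
        · rw [h1, h2]
          exact ⟨he, hc⟩
        · rw [h1, h2]
          exact ⟨he.symm, hc.symm⟩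
      rcases c with _ | _
      · -- an edge of the class other than the representative
        obtain ⟨e', h1, h2⟩ := hG.par (r e)
        have h3 := h2.trans (hr1 e)
        obtain ⟨h4, h5⟩ := hends e' h3
        refine ⟨Sum.inr e', ?_, Or.inl (adj_le h4)⟩
        rw [hcr, if_neg h5, hr2 e' e h3, decide_eq_false_iff_not]
        exact h1.symm
      · obtain ⟨h4, h5⟩ := hends (r e) (hr1 e)
        refine ⟨Sum.inr (r e), ?_, Or.inl (adj_le h4)⟩
        rw [hcr, if_neg h5, hr2 (r e) e (hr1 e), decide_eq_true_iff]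
    · by_cases hm : f (a e) = f (b e)
      · by_cases hc : c = f (a e)
        · exact ⟨Sum.inl (a e), hc.symm, Or.inl (adj_re (Or.inl rfl))⟩
        · have hc' : c = !f (a e) := by
            revert hc
            cases c <;> cases f (a e) <;> simp
          rcases k3 e (Finset.mem_filter.2 ⟨Finset.mem_univ _, hm⟩) with h | h
          · obtain ⟨e', h1, h2, h3, h4⟩ := h
            rw [Finset.mem_filter] at h1
            refine ⟨Sum.inr e', ?_, Or.inr ?_⟩
            · rw [hcr, if_pos h1.2, h4, hc']
            · rw [SimpleGraph.fromEdgeSet_adj]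
              exact ⟨by exact_mod_cast h2, fun h' => h3 (Sum.inr_injective h')⟩
          · refine ⟨Sum.inl (y e), ?_, Or.inr ?_⟩
            · have := hy e
              rw [hcl, hc']
              revert this
              cases f (y e) <;> cases f (a e) <;> simp
            · rw [SimpleGraph.fromEdgeSet_adj]
              exact ⟨by exact_mod_cast h, Sum.inr_ne_inl⟩
      · by_cases hc : c = f (a e)
        · exact ⟨Sum.inl (a e), hc.symm, Or.inl (adj_re (Or.inl rfl))⟩
        · refine ⟨Sum.inl (b e), ?_, Or.inl (adj_re (Or.inr rfl))⟩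
          rw [hcl]
          revert hc hm
          cases c <;> cases f (a e) <;> cases f (b e) <;> simp
  refine ⟨F.card, ⟨F, fun z hz => hF z (by exact_mod_cast hz), rfl,
    {v | col v = true}, {v | col v = false}, ?_, ?_, ?_⟩, ?_⟩
  · rw [Set.disjoint_left]
    intro v h1 h2
    have h3 : col v = true := h1
    have h4 : col v = false := h2
    rw [h3] at h4
    exact absurd h4 (by decide)
  · intro v
    obtain ⟨w, h1, h2⟩ := hmain v true
    exact ⟨w, h1, h2⟩
  · intro v
    obtain ⟨w, h1, h2⟩ := hmain v false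
    exact ⟨w, h1, h2⟩
  · rw [← hf]
    exact k1

theorem td_eq (hG : Good a b) : td (Sd a b) = (mm a b + 1) / 2 := by
  obtain ⟨t, ht, h⟩ := upper hG
  have h1 := lower (Nat.sInf_mem ⟨t, ht⟩)
  have h2 := Nat.sInf_le ht
  unfold td
  omega

end

end Pool.Agent.H84.MC
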