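import Mathlib
import Pool.Agent.H84.MC.M1

set_option autoImplicit false

/-! From a colouring with few exceptions to two disjoint total dominating sets. -/

namespace Pool.Agent.H84.MC

variable {V : Type*} [Fintype V] [DecidableEq V]

omit [Fintype V] in
/-- pairing up the elements of a set of vertices of one colour -/
theorem pairs1 (c : V → Bool) (y : V → V) (hy : ∀ v, v ≠ y v ∧ c (y v) = c v) (κ : Bool) :
    ∀ (n : ℕ) (U : Finset V), U.card = n → (∀ v ∈ U, c v = κ) →
    ∃ F : Finset (Sym2 V), 2 * F.card ≤ n + 1 ∧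
      (∀ z ∈ F, ∃ v w, v ∈ U ∧ v ≠ w ∧ c w = c v ∧ z = s(v, w)) ∧
      ∀ v ∈ U, ∃ w, v ≠ w ∧ c w = c v ∧ s(v, w) ∈ F := by
  intro n
  induction n using Nat.twoStepInduction with
  | zero =>
    intro U hU _
    rw [Finset.card_eq_zero] at hU
    subst hU
    exact ⟨∅, by simp, by simp, by simp⟩
  | one =>
    intro U hU _
    obtain ⟨v, rfl⟩ := Finset.card_eq_one.1 hU
    refine ⟨{s(v, y v)}, by simp, ?_, ?_⟩
    · intro z hz
      rw [Finset.mem_singleton] at hz
      exact ⟨v, y v, Finset.mem_singleton_self v, (hy v).1, (hy v).2, hz⟩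
    · intro w hw
      rw [Finset.mem_singleton] at hw
      subst hw
      exact ⟨y w, (hy w).1, (hy w).2, Finset.mem_singleton_self _⟩
  | more n ih _ =>
    intro U hU hc
    obtain ⟨v1, h1, v2, h2, h12⟩ := Finset.one_lt_card.1 (show 1 < U.card by omega)
    have hn : ((U.erase v1).erase v2).card = n := by
      rw [Finset.card_erase_of_mem (Finset.mem_erase.2 ⟨h12.symm, h2⟩),
        Finset.card_erase_of_mem h1, hU]
      omega
    have hU' : ∀ v ∈ (U.erase v1).erase v2, v ∈ U := by
      intro v hv
      rw [Finset.mem_erase, Finset.mem_erase] at hv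
      exact hv.2.2
    obtain ⟨F, k1, k2, k3⟩ := ih _ hn (fun v hv => hc v (hU' v hv))
    refine ⟨insert s(v1, v2) F, ?_, ?_, ?_⟩
    · have := Finset.card_insert_le s(v1, v2) F
      omega
    · intro z hz
      rcases Finset.mem_insert.1 hz with rfl | hz
      · exact ⟨v1, v2, h1, h12, (hc v2 h2).trans (hc v1 h1).symm, rfl⟩
      · obtain ⟨v, w, a1, a2, a3, a4⟩ := k2 z hz
        exact ⟨v, w, hU' v a1, a2, a3, a4⟩
    · intro v hv
      by_cases e1 : v = v1
      · subst e1
        exact ⟨v2, h12, (hc v2 h2).trans (hc v h1).symm, Finset.mem_insert_self _ _⟩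
      · by_cases e2 : v = v2
        · subst e2
          refine ⟨v1, h12.symm, (hc v1 h1).trans (hc v h2).symm, ?_⟩
          rw [Sym2.eq_swap]
          exact Finset.mem_insert_self _ _
        · obtain ⟨w, a1, a2, a3⟩ := k3 v (Finset.mem_erase.2 ⟨e2, Finset.mem_erase.2 ⟨e1, hv⟩⟩)
          exact ⟨w, a1, a2, Finset.mem_insert_of_mem a3⟩

theorem conv0 (G : SimpleGraph V) (c : V → Bool) (I X : Finset V)
    (hI : ∀ v, v ∈ I ∨ ∃ w, G.Adj v w ∧ c w = c v)
    (hX : ∀ v, v ∈ X ∨ ∃ w, G.Adj v w ∧ c w ≠ c v)
    (hy : ∀ v, ∃ w, v ≠ w ∧ c w = c v) (hz : ∀ v, ∃ w, c w ≠ c v) :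
    4 * td G ≤ 2 * I.card + 4 * X.card + 4 := by
  classical
  choose y hy using hy
  choose z hz using hz
  let I' : Finset V := Finset.univ.filter fun v => ¬ ∃ w, G.Adj v w ∧ c w = c v
  let X' : Finset V := Finset.univ.filter fun v => ¬ ∃ w, G.Adj v w ∧ c w ≠ c v
  have hI' : I' ⊆ I := by
    intro v hv
    exact (hI v).resolve_right (Finset.mem_filter.1 hv).2
  have hX' : X' ⊆ X := by
    intro v hv
    exact (hX v).resolve_right (Finset.mem_filter.1 hv).2
  obtain ⟨F1, a1, a2, a3⟩ := pairs1 c y hy true _ (I'.filter fun v => c v = true) rfl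
    (fun v hv => (Finset.mem_filter.1 hv).2)
  obtain ⟨F2, b1, b2, b3⟩ := pairs1 c y hy false _ (I'.filter fun v => ¬ c v = true) rfl
    (fun v hv => by
      have := (Finset.mem_filter.1 hv).2
      rwa [Bool.not_eq_true] at this)
  let F3 : Finset (Sym2 V) := X'.image fun v => s(v, z v)
  have hcI : (I'.filter fun v => c v = true).card + (I'.filter fun v => ¬ c v = true).card =
      I'.card := Finset.card_filter_add_card_filter_not _
  have h3 : F3.card ≤ X'.card := Finset.card_image_le
  have hcomp : ∀ e ∈ F1 ∪ F2 ∪ F3, e ∈ Gᶜ.edgeSet := by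
    intro e he
    rw [Finset.mem_union, Finset.mem_union] at he
    rcases he with (he | he) | he
    · obtain ⟨v, w, k1, k2, k3, rfl⟩ := a2 e he
      rw [SimpleGraph.mem_edgeSet, SimpleGraph.compl_adj]
      exact ⟨k2, fun h => (Finset.mem_filter.1 (Finset.mem_filter.1 k1).1).2 ⟨w, h, k3⟩⟩
    · obtain ⟨v, w, k1, k2, k3, rfl⟩ := b2 e he
      rw [SimpleGraph.mem_edgeSet, SimpleGraph.compl_adj]
      exact ⟨k2, fun h => (Finset.mem_filter.1 (Finset.mem_filter.1 k1).1).2 ⟨w, h, k3⟩⟩
    · obtain ⟨v, k1, rfl⟩ := Finset.mem_image.1 he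
      rw [SimpleGraph.mem_edgeSet, SimpleGraph.compl_adj]
      exact ⟨fun h => hz v (congrArg c h).symm,
        fun h => (Finset.mem_filter.1 k1).2 ⟨z v, h, hz v⟩⟩
  have hmain : ∀ (v : V) (κ : Bool), ∃ w, c w = κ ∧
      (G ⊔ SimpleGraph.fromEdgeSet ((F1 ∪ F2 ∪ F3 : Finset (Sym2 V)) : Set (Sym2 V))).Adj v w := by
    intro v κ
    have hadj : ∀ w, v ≠ w → s(v, w) ∈ F1 ∪ F2 ∪ F3 →
        (G ⊔ SimpleGraph.fromEdgeSet ((F1 ∪ F2 ∪ F3 : Finset (Sym2 V)) : Set (Sym2 V))).Adj
          v w := by
      intro w h1 h2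
      refine Or.inr ?_
      rw [SimpleGraph.fromEdgeSet_adj]
      exact ⟨by exact_mod_cast h2, h1⟩
    by_cases hκ : κ = c v
    · by_cases hv : ∃ w, G.Adj v w ∧ c w = c v
      · obtain ⟨w, h1, h2⟩ := hv
        exact ⟨w, h2.trans hκ.symm, Or.inl h1⟩
      · have hvI : v ∈ I' := Finset.mem_filter.2 ⟨Finset.mem_univ _, hv⟩
        by_cases hct : c v = true
        · obtain ⟨w, k1, k2, k3⟩ := a3 v (Finset.mem_filter.2 ⟨hvI, hct⟩)
          exact ⟨w, k2.trans hκ.symm, hadj w k1 (Finset.mem_union_left _
            (Finset.mem_union_left _ k3))⟩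
        · obtain ⟨w, k1, k2, k3⟩ := b3 v (Finset.mem_filter.2 ⟨hvI, hct⟩)
          exact ⟨w, k2.trans hκ.symm, hadj w k1 (Finset.mem_union_left _
            (Finset.mem_union_right _ k3))⟩
    · have hne : ∀ w, c w ≠ c v → c w = κ := by
        intro w h
        revert h hκ
        cases κ <;> cases c w <;> cases c v <;> simp
      by_cases hv : ∃ w, G.Adj v w ∧ c w ≠ c v
      · obtain ⟨w, h1, h2⟩ := hv
        exact ⟨w, hne w h2, Or.inl h1⟩
      · have hvX : v ∈ X' := Finset.mem_filter.2 ⟨Finset.mem_univ _, hv⟩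
        exact ⟨z v, hne _ (hz v), hadj _ (fun h => hz v (congrArg c h).symm)
          (Finset.mem_union_right _ (Finset.mem_image_of_mem _ hvX))⟩
  have hle : td G ≤ (F1 ∪ F2 ∪ F3).card := by
    refine Nat.sInf_le ⟨F1 ∪ F2 ∪ F3, fun e he => hcomp e (by exact_mod_cast he), rfl,
      {v | c v = true}, {v | c v = false}, ?_, ?_, ?_⟩
    · rw [Set.disjoint_left]
      intro v h1 h2
      have h3 : c v = true := h1
      have h4 : c v = false := h2
      rw [h3] at h4
      exact absurd h4 (by decide)
    · intro v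
      obtain ⟨w, h1, h2⟩ := hmain v true
      exact ⟨w, h1, h2⟩
    · intro v
      obtain ⟨w, h1, h2⟩ := hmain v false
      exact ⟨w, h1, h2⟩
  have u1 := Finset.card_union_le (F1 ∪ F2) F3
  have u2 := Finset.card_union_le F1 F2
  have u3 := Finset.card_le_card hI'
  have u4 := Finset.card_le_card hX'
  omega

theorem conv1 (G : SimpleGraph V) (hn : 4 ≤ Fintype.card V)
    (hd : ∀ v, 2 ≤ (G.neighborSet v).ncard) (c : V → Bool) (I X : Finset V)
    (hI : ∀ v, v ∈ I ∨ ∃ w, G.Adj v w ∧ c w = c v)
    (hX : ∀ v, v ∈ X ∨ ∃ w, G.Adj v w ∧ c w ≠ c v)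
    (a : V) (ha : ∀ v, c v = true ↔ v = a) :
    4 * td G ≤ 2 * I.card + 4 * X.card + 4 := by
  classical
  have hf : ∀ v, v ≠ a → c v = false := by
    intro v hv
    rw [← Bool.not_eq_true]
    exact fun h => hv ((ha v).1 h)
  have hat : c a = true := (ha a).2 rfl
  have hex : ∀ v p : V, ∃ r, G.Adj v r ∧ r ≠ p := by
    intro v p
    obtain ⟨r, h1, h2⟩ := Set.exists_ne_of_one_lt_ncard (hd v) p
    exact ⟨r, h1, h2⟩
  have haI : a ∈ I := by
    rcases hI a with h | ⟨w, h1, h2⟩
    · exact h
    · rw [hat, ha] at h2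
      exact absurd h2 h1.ne'
  obtain ⟨p, hp, hpa⟩ := hex a a
  -- the new colouring has two classes with at least two vertices
  have cls : ∀ s : V, s ≠ a → (∀ v, ∃ w, v ≠ w ∧ Function.update c s true w =
      Function.update c s true v) ∧ ∀ v, ∃ w, Function.update c s true w ≠
      Function.update c s true v := by
    intro s hs
    have t1 : Function.update c s true s = true := Function.update_self ..
    have t2 : Function.update c s true a = true := by
      rw [Function.update_of_ne hs.symm, hat]
    have t3 : ∀ v, v ≠ a → v ≠ s → Function.update c s true v = false := by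
      intro v h1 h2
      rw [Function.update_of_ne h2, hf v h1]
    have t4 : ∀ v, ∃ w, w ≠ v ∧ w ≠ a ∧ w ≠ s := by
      intro v
      by_contra hcon
      push Not at hcon
      have h1 : (Finset.univ : Finset V) ⊆ {v, a, s} := by
        intro w _
        rw [Finset.mem_insert, Finset.mem_insert, Finset.mem_singleton]
        by_cases e1 : w = v
        · exact Or.inl e1
        · by_cases e2 : w = a
          · exact Or.inr (Or.inl e2)
          · exact Or.inr (Or.inr (hcon w e1 e2))
      have h2 := Finset.card_le_card h1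
      rw [Finset.card_univ] at h2
      have h3 : ({v, a, s} : Finset V).card ≤ 3 := Finset.card_le_three
      omega
    refine ⟨fun v => ?_, fun v => ?_⟩
    · by_cases e1 : v = a
      · exact ⟨s, by rw [e1]; exact hs.symm, by rw [e1, t1, t2]⟩
      · by_cases e2 : v = s
        · exact ⟨a, by rw [e2]; exact hs, by rw [e2, t1, t2]⟩
        · obtain ⟨w, h1, h2, h3⟩ := t4 v
          exact ⟨w, h1.symm, by rw [t3 w h2 h3, t3 v e1 e2]⟩
    · by_cases e1 : Function.update c s true v = true
      · obtain ⟨w, h1, h2, h3⟩ := t4 v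
        refine ⟨w, ?_⟩
        rw [t3 w h2 h3, e1]
        decide
      · refine ⟨a, ?_⟩
        rw [t2]
        exact fun h => e1 h.symm
  have opp : ∀ s v : V, s ≠ a → v ≠ a → v ≠ s → v ∈ X ∨
      ∃ w, G.Adj v w ∧ Function.update c s true w ≠ Function.update c s true v := by
    intro s v hs h1 h2
    rcases hX v with h | ⟨w, h3, h4⟩
    · exact Or.inl h
    · have h5 : w = a := by
        rw [hf v h1, Bool.ne_false_iff] at h4
        exact (ha w).1 h4
      subst h5
      refine Or.inr ⟨w, h3, ?_⟩
      rw [Function.update_of_ne hs.symm, Function.update_of_ne h2, hat, hf v h1]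
      decide
  by_cases hq : ∃ q, q ≠ a ∧ q ≠ p ∧ ∀ w, G.Adj q w → w = a ∨ w = p
  · obtain ⟨q, hqa, hqp, hN⟩ := hq
    have q1 : G.Adj q a := by
      obtain ⟨r, h1, h2⟩ := hex q p
      rcases hN r h1 with h | h
      · rwa [h] at h1
      · exact absurd h h2
    have q2 : G.Adj q p := by
      obtain ⟨r, h1, h2⟩ := hex q a
      rcases hN r h1 with h | h
      · exact absurd h h2
      · rwa [h] at h1
    obtain ⟨c1, c2⟩ := cls q hqa
    have s1 : Function.update c q true q = true := Function.update_self ..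
    have s2 : Function.update c q true a = true := by rw [Function.update_of_ne hqa.symm, hat]
    have s3 : Function.update c q true p = false := by
      rw [Function.update_of_ne hqp.symm, hf p hpa]
    have h := conv0 G (Function.update c q true) (insert p (I.erase a)) X ?_ ?_ c1 c2
    · have h1 := Finset.card_insert_le p (I.erase a)
      rw [Finset.card_erase_of_mem haI] at h1
      have h2 := Finset.card_pos.2 ⟨a, haI⟩
      omega
    · intro v
      by_cases e1 : v = a
      · subst e1
        exact Or.inr ⟨q, q1.symm, by rw [s1, s2]⟩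
      · by_cases e2 : v = q
        · subst e2
          exact Or.inr ⟨a, q1, by rw [s1, s2]⟩
        · by_cases e3 : v = p
          · exact Or.inl (by rw [e3]; exact Finset.mem_insert_self _ _)
          · rcases hI v with h | ⟨w, h1, h2⟩
            · exact Or.inl (Finset.mem_insert_of_mem (Finset.mem_erase.2 ⟨e1, h⟩))
            · refine Or.inr ⟨w, h1, ?_⟩
              have h3 : w ≠ q := by
                rintro rfl
                rcases hN v h1.symm with h | h
                · exact e1 h
                · exact e3 h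
              rw [Function.update_of_ne h3, Function.update_of_ne e2, h2]
    · intro v
      by_cases e1 : v = a
      · subst e1
        refine Or.inr ⟨p, hp, ?_⟩
        rw [s2, s3]
        decide
      · by_cases e2 : v = q
        · subst e2
          refine Or.inr ⟨p, q2, ?_⟩
          rw [s1, s3]
          decide
        · exact opp q v hqa e1 e2
  · push Not at hq
    obtain ⟨c1, c2⟩ := cls p hpa
    have s1 : Function.update c p true p = true := Function.update_self ..
    have s2 : Function.update c p true a = true := by rw [Function.update_of_ne hpa.symm, hat]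
    have s3 : ∀ v, v ≠ a → v ≠ p → Function.update c p true v = false := by
      intro v h1 h2
      rw [Function.update_of_ne h2, hf v h1]
    have h := conv0 G (Function.update c p true) I X ?_ ?_ c1 c2
    · exact h
    · intro v
      by_cases e1 : v = a
      · subst e1
        exact Or.inr ⟨p, hp, by rw [s1, s2]⟩
      · by_cases e2 : v = p
        · subst e2
          exact Or.inr ⟨a, hp.symm, by rw [s1, s2]⟩
        · obtain ⟨w, h1, h2, h3⟩ := hq v e1 e2
          exact Or.inr ⟨w, h1, by rw [s3 w h2 h3, s3 v e1 e2]⟩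
    · intro v
      by_cases e1 : v = a
      · subst e1
        obtain ⟨r, h1, h2⟩ := hex v p
        refine Or.inr ⟨r, h1, ?_⟩
        rw [s2, s3 r h1.ne' h2]
        decide
      · by_cases e2 : v = p
        · subst e2
          obtain ⟨r, h1, h2⟩ := hex v a
          refine Or.inr ⟨r, h1, ?_⟩
          rw [s1, s3 r h2 h1.ne']
          decide
        · exact opp p v hpa e1 e2

theorem td_conv (G : SimpleGraph V) (hn : 4 ≤ Fintype.card V)
    (hd : ∀ v, 2 ≤ (G.neighborSet v).ncard) (c : V → Bool) (I X : Finset V)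
    (hI : ∀ v, v ∈ I ∨ ∃ w, G.Adj v w ∧ c w = c v)
    (hX : ∀ v, v ∈ X ∨ ∃ w, G.Adj v w ∧ c w ≠ c v) (hne : X.card < Fintype.card V) :
    4 * td G ≤ 2 * I.card + 4 * X.card + 4 := by
  classical
  have hnc : ∀ κ : Bool, ∃ v, c v = κ := by
    intro κ
    by_contra hcon
    push Not at hcon
    have h1 : ∀ v w, c v = c w := by
      intro v w
      have h2 := hcon v
      have h3 := hcon w
      revert h2 h3
      cases κ <;> cases c v <;> cases c w <;> simp
    have h2 : X = Finset.univ := by
      rw [Finset.eq_univ_iff_forall]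
      intro v
      rcases hX v with h | ⟨w, _, h⟩
      · exact h
      · exact absurd (h1 w v) h
    rw [h2, Finset.card_univ] at hne
    exact lt_irrefl _ hne
  by_cases hA : ∃ a, ∀ v, c v = true ↔ v = a
  · obtain ⟨a, ha⟩ := hA
    exact conv1 G hn hd c I X hI hX a ha
  · by_cases hB : ∃ a, ∀ v, c v = false ↔ v = a
    · obtain ⟨a, ha⟩ := hB
      refine conv1 G hn hd (fun v => !c v) I X ?_ ?_ a ?_
      · intro v
        rcases hI v with h | ⟨w, h1, h2⟩
        · exact Or.inl h
        · exact Or.inr ⟨w, h1, by simp only [h2]⟩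
      · intro v
        rcases hX v with h | ⟨w, h1, h2⟩
        · exact Or.inl h
        · refine Or.inr ⟨w, h1, ?_⟩
          intro h3
          exact h2 (Bool.not_inj h3)
      · intro v
        rw [← ha v]
        simp
    · push Not at hA hB
      refine conv0 G c I X hI hX ?_ ?_
      · intro v
        rcases hc : c v with _ | _
        · obtain ⟨w, hw⟩ := hB v
          rcases hw with ⟨h1, h2⟩ | ⟨h1, h2⟩
          · exact ⟨w, fun h => h2 h.symm, h1⟩
          · rw [h2] at h1
            exact absurd hc h1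
        · obtain ⟨w, hw⟩ := hA v
          rcases hw with ⟨h1, h2⟩ | ⟨h1, h2⟩
          · exact ⟨w, fun h => h2 h.symm, h1⟩
          · rw [h2] at h1
            exact absurd hc h1
      · intro v
        obtain ⟨w, hw⟩ := hnc (!c v)
        refine ⟨w, ?_⟩
        rw [hw]
        simp

end Pool.Agent.H84.MC
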