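import Mathlib
import Pool.Agent.H84.MC.M1

set_option autoImplicit false

/-! The bound for the whole class and the examples. -/

namespace Pool.Agent.H84.MC

section
variable {B E : Type*} {a b : E → B} [Fintype B] [Fintype E]

theorem two_nbrs {V : Type*} [Finite V] {G : SimpleGraph V} {v a b : V} (hab : a ≠ b)
    (ha : G.Adj v a) (hb : G.Adj v b) : 2 ≤ (G.neighborSet v).ncard := by
  have h1 : ({a, b} : Set V) ⊆ G.neighborSet v := by
    intro x hx
    rcases hx with rfl | hx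
    · exact ha
    · rw [Set.mem_singleton_iff] at hx
      subst hx
      exact hb
  have h2 := Set.ncard_le_ncard h1 (Set.toFinite _)
  rwa [Set.ncard_pair hab] at h2

theorem min_deg (hG : Good a b) (v : B ⊕ E) : 2 ≤ ((Sd a b).neighborSet v).ncard := by
  rcases v with x | e
  · obtain ⟨e, he⟩ := hG.cov x
    obtain ⟨e', h1, h2⟩ := hG.par e
    refine two_nbrs (a := Sum.inr e) (b := Sum.inr e') (fun h => h1 (Sum.inr_injective h).symm)
      (adj_le he) (adj_le ?_)
    rw [Sym2.eq_iff] at h2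
    rcases h2 with ⟨h3, h4⟩ | ⟨h3, h4⟩
    · rw [h3, h4]
      exact he
    · rw [h3, h4]
      exact he.symm
  · exact two_nbrs (fun h => hG.ne e (Sum.inl_injective h)) (adj_re (Or.inl rfl))
      (adj_re (Or.inr rfl))

/-- the real bound -/
theorem half_mm (h : 2 * Fintype.card B * mm a b ≤ Fintype.card E * (Fintype.card B - 1)) :
    (mm a b : ℝ) / 2 ≤ (Real.sqrt (Fintype.card (B ⊕ E)) - 1) ^ 2 / 4 := by
  rw [Fintype.card_sum]
  rcases Nat.eq_zero_or_pos (Fintype.card B) with h0 | h0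
  · have hB : IsEmpty B := Fintype.card_eq_zero_iff.1 h0
    have hE : IsEmpty E := ⟨fun e => hB.elim (a e)⟩
    have h1 : mm a b = 0 := by
      obtain ⟨f, hf⟩ := mm_mem (a := a) (b := b)
      rw [← hf, mono, Finset.card_eq_zero, Finset.filter_eq_empty_iff]
      intro e
      exact hE.elim e
    rw [h1, Nat.cast_zero, zero_div]
    exact div_nonneg (sq_nonneg _) (by norm_num)
  · have h1 : (2 : ℝ) * Fintype.card B * mm a b ≤ Fintype.card E * (Fintype.card B - 1) := by
      have h2 : ((Fintype.card B - 1 : ℕ) : ℝ) = (Fintype.card B : ℝ) - 1 := by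
        rw [Nat.cast_sub h0, Nat.cast_one]
      rw [← h2]
      exact_mod_cast h
    have hv : (0 : ℝ) < Fintype.card B := by exact_mod_cast h0
    set v : ℝ := (Fintype.card B : ℝ) with hvd
    set M : ℝ := (Fintype.card E : ℝ) with hMd
    set x : ℝ := (mm a b : ℝ) with hx
    have hM : 0 ≤ M := by rw [hMd]; positivity
    have hs : Real.sqrt ((Fintype.card B + Fintype.card E : ℕ) : ℝ) ^ 2 = v + M := by
      rw [Real.sq_sqrt (by positivity), Nat.cast_add]
    set s : ℝ := Real.sqrt ((Fintype.card B + Fintype.card E : ℕ) : ℝ) with hsd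
    have hs0 : 0 ≤ s := Real.sqrt_nonneg _
    have h3 : 2 * v * x ≤ (s ^ 2 - v) * (v - 1) := by
      rw [hs]
      have : v + M - v = M := by ring
      rw [this]
      exact h1
    have h4 : v * (2 * x) ≤ v * (s - 1) ^ 2 := by
      nlinarith [sq_nonneg (v - s)]
    have h5 := le_of_mul_le_mul_left h4 hv
    linarith

theorem td_bound (hG : Good a b)
    (h : 2 * Fintype.card B * mm a b ≤ Fintype.card E * (Fintype.card B - 1)) :
    td (Sd a b) ≤ ⌈(Real.sqrt (Fintype.card (B ⊕ E)) - 1) ^ 2 / 4⌉₊ ∧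
    (td (Sd a b) : ℝ) ≤
      ((Fintype.card (B ⊕ E) : ℝ) - 2 * Real.sqrt (Fintype.card (B ⊕ E))) / 4 + 3 / 4 := by
  have h1 := half_mm h
  have h2 := td_eq hG
  set s : ℝ := Real.sqrt (Fintype.card (B ⊕ E)) with hs
  have hs2 : s ^ 2 = (Fintype.card (B ⊕ E) : ℝ) := Real.sq_sqrt (by positivity)
  constructor
  · have h3 : (mm a b : ℝ) ≤ 2 * (⌈(s - 1) ^ 2 / 4⌉₊ : ℝ) := by
      have := Nat.le_ceil ((s - 1) ^ 2 / 4)
      linarith
    have h4 : mm a b ≤ 2 * ⌈(s - 1) ^ 2 / 4⌉₊ := by exact_mod_cast h3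
    omega
  · have h3 : 2 * td (Sd a b) ≤ mm a b + 1 := by omega
    have h4 : (2 : ℝ) * td (Sd a b) ≤ mm a b + 1 := by exact_mod_cast h3
    rw [← hs2]
    nlinarith

end

/-! ### The examples -/

/-- the edges of the doubled complete graph and `i` triangles -/
abbrev EE (m i : ℕ) := {p : Fin m × Fin m // p.1 ≠ p.2} ⊕ (Fin i × Fin 3)

/-- first end -/
def ea {m : ℕ} (hm : 3 ≤ m) {i : ℕ} : EE m i → Fin m :=
  Sum.elim (fun p => p.1.1) (fun t => ⟨t.2.val, by omega⟩)

/-- second end -/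
def eb {m : ℕ} (hm : 3 ≤ m) {i : ℕ} : EE m i → Fin m :=
  Sum.elim (fun p => p.1.2) (fun t => ⟨(t.2.val + 1) % 3, by omega⟩)

variable {m : ℕ} (hm : 3 ≤ m) {i : ℕ}

theorem good : Good (ea hm : EE m i → Fin m) (eb hm) where
  ne := by
    rintro (p | t)
    · exact p.2
    · intro h
      have h1 : t.2.val = (t.2.val + 1) % 3 := congrArg Fin.val h
      omega
  par := by
    rintro (⟨⟨x, y⟩, h⟩ | t)
    · refine ⟨Sum.inl ⟨(y, x), fun h' => h h'.symm⟩, ?_, ?_⟩
      · intro h'
        have := congrArg Subtype.val (Sum.inl_injective h')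
        exact h (congrArg Prod.snd this)
      · exact Sym2.eq_swap
    · refine ⟨Sum.inl ⟨(⟨t.2.val, by omega⟩, ⟨(t.2.val + 1) % 3, by omega⟩), ?_⟩, by simp, rfl⟩
      intro h
      have h1 : t.2.val = (t.2.val + 1) % 3 := congrArg Fin.val h
      omega
  cov := by
    intro x
    obtain ⟨y, hy⟩ : ∃ y : Fin m, x ≠ y := by
      by_cases h0 : x.val = 0
      · exact ⟨(⟨1, by omega⟩ : Fin m), fun h => by rw [h] at h0; simp at h0⟩
      · exact ⟨(⟨0, by omega⟩ : Fin m), fun h => by rw [h] at h0; simp at h0⟩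
    exact ⟨Sum.inl ⟨(x, y), hy⟩, Or.inl rfl⟩

theorem reach (x y : Fin m) :
    (Sd (ea hm : EE m i → Fin m) (eb hm)).Reachable (Sum.inl x) (Sum.inl y) := by
  by_cases h : x = y
  · rw [h]
  · exact (adj_le (a := ea hm) (b := eb hm) (e := (Sum.inl ⟨(x, y), h⟩ : EE m i))
      (Or.inl rfl)).reachable.trans (adj_re (a := ea hm) (b := eb hm)
      (e := (Sum.inl ⟨(x, y), h⟩ : EE m i)) (Or.inr rfl)).reachable

theorem conn : (Sd (ea hm : EE m i → Fin m) (eb hm)).Connected := by
  have h0 : ∀ v : Fin m ⊕ EE m i, ∃ x : Fin m,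
      (Sd (ea hm : EE m i → Fin m) (eb hm)).Reachable v (Sum.inl x) := by
    rintro (x | e)
    · exact ⟨x, SimpleGraph.Reachable.refl _⟩
    · exact ⟨ea hm e, (adj_re (Or.inl rfl)).reachable⟩
  have hp : (Sd (ea hm : EE m i → Fin m) (eb hm)).Preconnected := by
    intro u v
    obtain ⟨x, hx⟩ := h0 u
    obtain ⟨y, hy⟩ := h0 v
    exact (hx.trans (reach hm x y)).trans hy.symm
  have : Nonempty (Fin m ⊕ EE m i) := ⟨Sum.inl ⟨0, by omega⟩⟩
  exact ⟨hp⟩

theorem card_ne_pairs (m : ℕ) : Fintype.card {p : Fin m × Fin m // p.1 ≠ p.2} = m * (m - 1) := by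
  rw [Fintype.card_subtype]
  have h : (Finset.univ.filter fun p : Fin m × Fin m => p.1 ≠ p.2) =
      (Finset.univ : Finset (Fin m)).offDiag := by
    ext p
    simp [Finset.mem_offDiag]
  rw [h, Finset.offDiag_card, Finset.card_univ, Fintype.card_fin, Nat.mul_sub_one]

theorem card_EE (m i : ℕ) : Fintype.card (EE m i) = m * (m - 1) + 3 * i := by
  rw [Fintype.card_sum, card_ne_pairs, Fintype.card_prod, Fintype.card_fin, Fintype.card_fin]
  ring

/-- Number of ordered pairs of distinct indices on the same side. -/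
theorem count_pairs (k : ℕ) (c : Fin (2 * k + 1) → Bool) :
    2 * k ^ 2 ≤ (Finset.univ.filter
      fun p : {p : Fin (2 * k + 1) × Fin (2 * k + 1) // p.1 ≠ p.2} => c p.1.1 = c p.1.2).card := by
  classical
  set P := (Finset.univ : Finset (Fin (2 * k + 1))).filter (fun i => c i = true) with hP
  set Q := (Finset.univ : Finset (Fin (2 * k + 1))).filter (fun i => ¬ c i = true) with hQ
  have hsum : P.card + Q.card = 2 * k + 1 := by
    have := Finset.card_filter_add_card_filter_not (s := (Finset.univ : Finset (Fin (2 * k + 1))))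
      (fun i => c i = true)
    rw [Finset.card_univ, Fintype.card_fin] at this
    exact this
  have hsub : P.offDiag ∪ Q.offDiag ⊆ (Finset.univ.filter
      fun p : {p : Fin (2 * k + 1) × Fin (2 * k + 1) // p.1 ≠ p.2} => c p.1.1 = c p.1.2).map
      (Function.Embedding.subtype _) := by
    intro p hp
    rw [Finset.mem_union, Finset.mem_offDiag, Finset.mem_offDiag] at hp
    rw [Finset.mem_map]
    rcases hp with ⟨h1, h2, h3⟩ | ⟨h1, h2, h3⟩
    · rw [hP, Finset.mem_filter] at h1 h2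
      exact ⟨⟨p, h3⟩, Finset.mem_filter.2 ⟨Finset.mem_univ _, h1.2.trans h2.2.symm⟩, rfl⟩
    · rw [hQ, Finset.mem_filter] at h1 h2
      refine ⟨⟨p, h3⟩, Finset.mem_filter.2 ⟨Finset.mem_univ _, ?_⟩, rfl⟩
      rw [Bool.not_eq_true] at h1 h2
      exact h1.2.trans h2.2.symm
  have hdis : Disjoint P.offDiag Q.offDiag := by
    rw [Finset.disjoint_left]
    intro p h1 h2
    rw [Finset.mem_offDiag] at h1 h2
    have h3 := h1.1
    have h4 := h2.1
    rw [hP, Finset.mem_filter] at h3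
    rw [hQ, Finset.mem_filter] at h4
    exact h4.2 h3.2
  rw [← Finset.card_map (Function.Embedding.subtype _)]
  refine le_trans ?_ (Finset.card_le_card hsub)
  rw [Finset.card_union_of_disjoint hdis, Finset.offDiag_card, Finset.offDiag_card]
  generalize P.card = p at *
  generalize Q.card = q at *
  have h1 : p ≤ p * p := Nat.le_mul_self p
  have h2 : q ≤ q * q := Nat.le_mul_self q
  zify [h1, h2]
  have hk : (p : ℤ) + q = 2 * k + 1 := by exact_mod_cast hsum
  have hne : (p : ℤ) - q ≠ 0 := by omega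
  have h3 : 1 ≤ ((p : ℤ) - q) ^ 2 := by
    have : 0 < ((p : ℤ) - q) ^ 2 := by positivity
    omega
  nlinarith

theorem low_ex {k : ℕ} (hk : 3 ≤ 2 * k + 1) (f : Fin (2 * k + 1) → Bool) :
    2 * k ^ 2 + i ≤ mono (ea hk : EE (2 * k + 1) i → Fin (2 * k + 1)) (eb hk) f := by
  classical
  have hex : ∃ t : Fin 3, f ⟨t.val, by omega⟩ = f ⟨(t.val + 1) % 3, by omega⟩ := by
    by_contra hcon
    push Not at hcon
    have h0 := hcon 0
    have h1 := hcon 1
    have h2 := hcon 2
    simp only [Fin.val_zero, Fin.val_one, Fin.val_two, Nat.reduceAdd, Nat.reduceMod] at h0 h1 h2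
    revert h0 h1 h2
    cases f ⟨0, by omega⟩ <;> cases f ⟨1, by omega⟩ <;> cases f ⟨2, by omega⟩ <;> simp
  obtain ⟨t, ht⟩ := hex
  have hsub : ((Finset.univ.filter
      fun p : {p : Fin (2 * k + 1) × Fin (2 * k + 1) // p.1 ≠ p.2} => f p.1.1 = f p.1.2).map
      Function.Embedding.inl) ∪ ((Finset.univ.image fun j : Fin i => (j, t)).map
      Function.Embedding.inr) ⊆ (Finset.univ.filter fun e : EE (2 * k + 1) i =>
        f (ea hk e) = f (eb hk e)) := by
    intro e he
    rw [Finset.mem_union, Finset.mem_map, Finset.mem_map] at he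
    rw [Finset.mem_filter]
    refine ⟨Finset.mem_univ _, ?_⟩
    rcases he with ⟨p, hp, rfl⟩ | ⟨p, hp, rfl⟩
    · exact (Finset.mem_filter.1 hp).2
    · obtain ⟨j, _, rfl⟩ := Finset.mem_image.1 hp
      exact ht
  refine le_trans ?_ (Finset.card_le_card hsub)
  rw [Finset.card_union_of_disjoint, Finset.card_map, Finset.card_map,
    Finset.card_image_of_injective _ (fun x y h => congrArg Prod.fst h), Finset.card_univ,
    Fintype.card_fin]
  · exact Nat.add_le_add_right (count_pairs k f) i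
  · rw [Finset.disjoint_left]
    intro e h1 h2
    obtain ⟨p, _, rfl⟩ := Finset.mem_map.1 h1
    obtain ⟨q, _, h3⟩ := Finset.mem_map.1 h2
    exact Sum.inr_ne_inl h3

theorem mm_ex {k : ℕ} (hk : 3 ≤ 2 * k + 1) (hi : i ≤ 1)
    (h : 2 * Fintype.card (Fin (2 * k + 1)) *
      mm (ea hk : EE (2 * k + 1) i → Fin (2 * k + 1)) (eb hk) ≤
      Fintype.card (EE (2 * k + 1) i) * (Fintype.card (Fin (2 * k + 1)) - 1)) :
    mm (ea hk : EE (2 * k + 1) i → Fin (2 * k + 1)) (eb hk) = 2 * k ^ 2 + i := by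
  apply le_antisymm
  · rw [card_EE, Fintype.card_fin, Nat.add_sub_cancel] at h
    by_contra hcon
    have h1 : 2 * k ^ 2 + i + 1 ≤ mm (ea hk : EE (2 * k + 1) i → Fin (2 * k + 1)) (eb hk) := by
      omega
    have h2 : 2 * (2 * k + 1) * (2 * k ^ 2 + i + 1) ≤
        ((2 * k + 1) * (2 * k) + 3 * i) * (2 * k) := (Nat.mul_le_mul_left _ h1).trans h
    interval_cases i
    · nlinarith
    · nlinarith
  · obtain ⟨f, hf⟩ := mm_mem (a := (ea hk : EE (2 * k + 1) i → Fin (2 * k + 1))) (b := eb hk)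
    rw [← hf]
    exact low_ex hk f

end Pool.Agent.H84.MC
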