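import Mathlib
import Pool.Agent.H84.MC.M2
import Pool.Agent.H84.MC.Conv
import Pool.Agent.L0.MaxCut

set_option autoImplicit false

/-! The bound for all graphs from a colouring of small weight, and the examples. -/

namespace Pool.Agent.H84.MC

/-- The complete graph on at least four vertices has two disjoint total dominating sets, so the set
of admissible sizes is not empty. -/
theorem augmentSizes_nonempty {V : Type*} [Fintype V] (hV : 4 ≤ Fintype.card V)
    (G : SimpleGraph V) : (augmentSizes G).Nonempty := by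
  classical
  obtain ⟨A, _, hA⟩ := Finset.exists_subset_card_eq (s := (Finset.univ : Finset V)) (n := 4)
    (by rw [Finset.card_univ]; exact hV)
  obtain ⟨a, b, c, d, hab, hac, had, hbc, hbd, hcd, hAe⟩ := Finset.card_eq_four.1 hA
  refine ⟨Gᶜ.edgeFinset.card, Gᶜ.edgeFinset, ?_, rfl, ?_⟩
  · rw [SimpleGraph.coe_edgeFinset]
  · have hadj : ∀ u v : V, u ≠ v →
        (G ⊔ SimpleGraph.fromEdgeSet ((Gᶜ.edgeFinset : Finset (Sym2 V)) : Set (Sym2 V))).Adj u v := by
      intro u v huv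
      rw [SimpleGraph.coe_edgeFinset, SimpleGraph.fromEdgeSet_edgeSet, SimpleGraph.sup_adj,
        SimpleGraph.compl_adj]
      by_cases h : G.Adj u v
      · exact Or.inl h
      · exact Or.inr ⟨huv, h⟩
    have htd : ∀ x y : V, x ≠ y → IsTotalDominating
        (G ⊔ SimpleGraph.fromEdgeSet ((Gᶜ.edgeFinset : Finset (Sym2 V)) : Set (Sym2 V)))
        ({x, y} : Set V) := by
      intro x y hxy v
      by_cases h : v = x
      · subst h
        exact ⟨y, by simp, hadj _ _ hxy⟩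
      · exact ⟨x, by simp, hadj _ _ h⟩
    refine ⟨{a, b}, {c, d}, ?_, htd a b hab, htd c d hcd⟩
    rw [Set.disjoint_left]
    rintro x (rfl | h1) (h2 | h2)
    · exact hac h2
    · exact had h2
    · rw [Set.mem_singleton_iff] at h1; subst h1; exact hbc h2
    · rw [Set.mem_singleton_iff] at h1; subst h1; exact hbd h2

theorem upper_of_sol {V : Type*} [Fintype V] (G : SimpleGraph V) (hn : 4 ≤ Fintype.card V)
    (hd : ∀ v, 2 ≤ (G.neighborSet v).ncard)
    (hs : ∃ (c : V → Bool) (I X : Finset V), (∀ v, (v ∈ I ∨ ∃ w, G.Adj v w ∧ c w = c v) ∧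
      (v ∈ X ∨ ∃ w, G.Adj v w ∧ c w ≠ c v)) ∧
      ((2 * I.card + 4 * X.card : ℕ) : ℝ) ≤
        (Fintype.card V : ℝ) - 2 * Real.sqrt (Fintype.card V) + 5) :
    (td G : ℝ) ≤ ((Fintype.card V : ℝ) - 2 * Real.sqrt (Fintype.card V)) / 4 + 9 / 4 := by
  classical
  obtain ⟨c, I, X, h, hw⟩ := hs
  have hn' : (4 : ℝ) ≤ Fintype.card V := by exact_mod_cast hn
  have hsq : 2 ≤ Real.sqrt (Fintype.card V) := by
    apply Real.le_sqrt_of_sq_le
    linarith
  have hX : X.card < Fintype.card V := by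
    have h1 : (X.card : ℝ) < Fintype.card V := by
      push_cast at hw
      have : (0 : ℝ) ≤ I.card := by positivity
      linarith
    exact_mod_cast h1
  have h2 := td_conv G hn hd c I X (fun v => (h v).1) (fun v => (h v).2) hX
  have h3 : (4 : ℝ) * td G ≤ ((2 * I.card + 4 * X.card : ℕ) : ℝ) + 4 := by exact_mod_cast h2
  linarith

/-- three disjoint triangles -/
def G3 : SimpleGraph (Fin 3 × Fin 3) where
  Adj x y := x.1 = y.1 ∧ x.2 ≠ y.2
  symm := ⟨fun _ _ h => ⟨h.1.symm, h.2.symm⟩⟩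
  loopless := ⟨fun _ h => h.2 rfl⟩

theorem td_G3 : 2 ≤ td G3 := by
  classical
  obtain ⟨F, _, hF, S, T, hST, hS, hT⟩ := Nat.sInf_mem (augmentSizes_nonempty (by simp) G3)
  change F.card = td G3 at hF
  have key : ∀ i : Fin 3, ∃ a : Fin 3, ∃ e ∈ F, (i, a) ∈ e := by
    intro i
    by_contra hc
    push Not at hc
    have hG : ∀ a u, (G3 ⊔ SimpleGraph.fromEdgeSet (F : Set (Sym2 (Fin 3 × Fin 3)))).Adj (i, a) u →
        G3.Adj (i, a) u := by
      intro a u hu
      rw [SimpleGraph.sup_adj] at hu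
      rcases hu with hu | hu
      · exact hu
      · rw [SimpleGraph.fromEdgeSet_adj] at hu
        exact absurd (Sym2.mem_mk_left (i, a) u) (hc a _ (by exact_mod_cast hu.1))
    have h1 : ∀ a : Fin 3, ∃ b : Fin 3, a ≠ b ∧ (i, b) ∈ S := fun a => by
      obtain ⟨⟨j, b⟩, hu, hu'⟩ := hS (i, a)
      obtain ⟨h0, h2⟩ := hG a _ hu'
      have h0' : i = j := h0
      subst h0'
      exact ⟨b, h2, hu⟩
    have h2 : ∀ a : Fin 3, ∃ b : Fin 3, a ≠ b ∧ (i, b) ∉ S := fun a => by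
      obtain ⟨⟨j, b⟩, hu, hu'⟩ := hT (i, a)
      obtain ⟨h0, h2⟩ := hG a _ hu'
      have h0' : i = j := h0
      subst h0'
      exact ⟨b, h2, fun h => Set.disjoint_left.1 hST h hu⟩
    have h3 : ∀ c : Fin 3 → Bool, (∀ a : Fin 3, ∃ b : Fin 3, a ≠ b ∧ c b = true) →
      ¬ (∀ a : Fin 3, ∃ b : Fin 3, a ≠ b ∧ c b = false) := by decide
    exact h3 (fun b => decide ((i, b) ∈ S)) (by simpa using h1) (by simpa using h2)
  choose a ha using key
  have h1 := ends_card F (Finset.univ : Finset (Fin 3)) (fun i => (i, a i))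
    (fun x y h => congrArg Prod.fst h) (fun i _ => ha i)
  rw [Finset.card_univ, Fintype.card_fin] at h1
  omega

theorem deg_G3 (v : Fin 3 × Fin 3) : 2 ≤ (G3.neighborSet v).ncard := by
  obtain ⟨i, a⟩ := v
  exact two_nbrs (a := (i, a + 1)) (b := (i, a + 2))
    (fun h => (by decide : ∀ a : Fin 3, a + 1 ≠ a + 2) a (Prod.mk.inj h).2)
    ⟨rfl, (by decide : ∀ a : Fin 3, a ≠ a + 1) a⟩ ⟨rfl, (by decide : ∀ a : Fin 3, a ≠ a + 2) a⟩

theorem three_triangles : Fintype.card (Fin 3 × Fin 3) = 9 ∧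
    (∀ v, 2 ≤ (G3.neighborSet v).ncard) ∧
    ((Fintype.card (Fin 3 × Fin 3) : ℝ) - 2 * Real.sqrt (Fintype.card (Fin 3 × Fin 3))) / 4 +
      5 / 4 ≤ (td G3 : ℝ) := by
  refine ⟨by simp, deg_G3, ?_⟩
  have h1 : (2 : ℝ) ≤ td G3 := by exact_mod_cast td_G3
  have hc : (Fintype.card (Fin 3 × Fin 3) : ℝ) = 3 ^ 2 := by simp; norm_num
  rw [hc, Real.sqrt_sq (by norm_num)]
  linarith

theorem big (N : ℕ) : ∃ (V : Type) (_ : Fintype V) (G : SimpleGraph V),
    N ≤ Fintype.card V ∧ G.Connected ∧ (∀ v, 2 ≤ (G.neighborSet v).ncard) ∧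
    ((Fintype.card V : ℝ) - 2 * Real.sqrt (Fintype.card V)) / 4 + 1 / 2 < (td G : ℝ) := by
  classical
  obtain ⟨k, hkN⟩ : ∃ k, k = N + 1 := ⟨_, rfl⟩
  have hk3 : 3 ≤ 2 * k + 1 := by omega
  have hG := good hk3 (i := 1)
  have hcut : 2 * Fintype.card (Fin (2 * k + 1)) *
      mm (ea hk3 : EE (2 * k + 1) 1 → Fin (2 * k + 1)) (eb hk3) ≤
      Fintype.card (EE (2 * k + 1) 1) * (Fintype.card (Fin (2 * k + 1)) - 1) := by
    obtain ⟨f, hf⟩ := Pool.Agent.L0.maxcut (ea hk3 : EE (2 * k + 1) 1 → Fin (2 * k + 1)) (eb hk3)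
      hG.ne
    exact (Nat.mul_le_mul_left _ (mm_le f)).trans hf
  have hmm := mm_ex hk3 le_rfl hcut
  have htd := td_eq hG
  rw [hmm] at htd
  have htd' : td (Sd (ea hk3 : EE (2 * k + 1) 1 → Fin (2 * k + 1)) (eb hk3)) = k ^ 2 + 1 := by
    rw [htd]
    omega
  have hcard : Fintype.card (Fin (2 * k + 1) ⊕ EE (2 * k + 1) 1) = (2 * k + 1) ^ 2 + 3 := by
    rw [Fintype.card_sum, card_EE, Fintype.card_fin, Nat.add_sub_cancel]
    ring
  refine ⟨_, inferInstance, Sd (ea hk3 : EE (2 * k + 1) 1 → Fin (2 * k + 1)) (eb hk3), ?_,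
    conn hk3, min_deg hG, ?_⟩
  · rw [hcard]
    nlinarith
  · rw [htd', hcard]
    push_cast
    have hs : (2 * (k : ℝ) + 1) < Real.sqrt ((2 * (k : ℝ) + 1) ^ 2 + 3) := by
      apply Real.lt_sqrt_of_sq_lt
      linarith
    nlinarith

end Pool.Agent.H84.MC
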