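import Mathlib
import Pool.Agent.H84.MC.Fin

set_option autoImplicit false

/-! The stronger bound, and the disjoint union of a triangle and a pentagon. -/

namespace Pool.Agent.H84.MC

theorem upper_of_sol' {V : Type*} [Fintype V] (G : SimpleGraph V) (hn : 4 ≤ Fintype.card V)
    (hd : ∀ v, 2 ≤ (G.neighborSet v).ncard)
    (hs : ∃ (c : V → Bool) (I X : Finset V), (∀ v, (v ∈ I ∨ ∃ w, G.Adj v w ∧ c w = c v) ∧
      (v ∈ X ∨ ∃ w, G.Adj v w ∧ c w ≠ c v)) ∧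
      ((2 * I.card + 4 * X.card : ℕ) : ℝ) ≤
        max ((Fintype.card V : ℝ) - 2 * Real.sqrt (Fintype.card V) + 1)
          (4 * (Fintype.card V : ℝ) / 5)) :
    (td G : ℝ) ≤ max ((Real.sqrt (Fintype.card V) - 1) ^ 2 / 4) ((Fintype.card V : ℝ) / 5) + 1 := by
  classical
  obtain ⟨c, I, X, h, hw⟩ := hs
  have hn' : (4 : ℝ) ≤ Fintype.card V := by exact_mod_cast hn
  have hsq : 2 ≤ Real.sqrt (Fintype.card V) := by
    apply Real.le_sqrt_of_sq_le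
    linarith
  have hX : X.card < Fintype.card V := by
    have h1 : (X.card : ℝ) < Fintype.card V := by
      push_cast at hw
      have h0 : (0 : ℝ) ≤ I.card := by positivity
      rcases le_max_iff.1 hw with h2 | h2
      · linarith
      · linarith
    exact_mod_cast h1
  have h2 := td_conv G hn hd c I X (fun v => (h v).1) (fun v => (h v).2) hX
  have h3 : (4 : ℝ) * td G ≤ ((2 * I.card + 4 * X.card : ℕ) : ℝ) + 4 := by exact_mod_cast h2
  have hs2 := Real.sq_sqrt (show (0 : ℝ) ≤ Fintype.card V by positivity)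
  rcases le_max_iff.1 hw with h4 | h4
  · have := le_max_left ((Real.sqrt (Fintype.card V) - 1) ^ 2 / 4) ((Fintype.card V : ℝ) / 5)
    nlinarith
  · have := le_max_right ((Real.sqrt (Fintype.card V) - 1) ^ 2 / 4) ((Fintype.card V : ℝ) / 5)
    linarith

/-- the two consequences of the bound -/
theorem max_le (x : ℝ) (hx : 0 ≤ x) :
    max ((Real.sqrt x - 1) ^ 2 / 4) (x / 5) + 1 ≤ (x - 2 * Real.sqrt x) / 4 + 9 / 4 ∧
    (90 ≤ x → max ((Real.sqrt x - 1) ^ 2 / 4) (x / 5) = (Real.sqrt x - 1) ^ 2 / 4) := by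
  have hs := Real.sq_sqrt hx
  have hs0 := Real.sqrt_nonneg x
  have h91 : 90 ≤ x → (473 / 50 : ℝ) ≤ Real.sqrt x := by
    intro h90
    apply Real.le_sqrt_of_sq_le
    norm_num
    linarith
  set s := Real.sqrt x with hsd
  refine ⟨?_, fun h90 => max_eq_left ?_⟩
  · rcases max_cases ((s - 1) ^ 2 / 4) (x / 5) with ⟨h, _⟩ | ⟨h, _⟩
    · rw [h]
      nlinarith
    · rw [h]
      nlinarith [sq_nonneg (s - 5)]
  · nlinarith [h91 h90]

theorem le_floor' {t : ℕ} {x : ℝ} (h : (t : ℝ) ≤ x + 1) : t ≤ ⌊x⌋₊ + 1 := by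
  rcases Nat.eq_zero_or_pos t with h0 | h0
  · omega
  · have h1 : ((t - 1 : ℕ) : ℝ) ≤ x := by
      rw [Nat.cast_sub h0, Nat.cast_one]
      linarith
    have := Nat.le_floor h1
    omega

theorem floor_ex {k : ℕ} (hk : 1 ≤ k) {n : ℕ} (hn : n = (2 * k + 1) ^ 2 + 3) :
    ⌊(Real.sqrt n - 1) ^ 2 / 4⌋₊ = k ^ 2 ∧ ((n : ℝ) - 2 * Real.sqrt n) / 4 + 1 / 2 < k ^ 2 + 1 := by
  have hk' : (1 : ℝ) ≤ k := by exact_mod_cast hk
  have hn' : (n : ℝ) = (2 * (k : ℝ) + 1) ^ 2 + 3 := by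
    rw [hn]
    push_cast
    ring
  have hs := Real.sq_sqrt (show (0 : ℝ) ≤ n by positivity)
  have h1 : (2 * (k : ℝ) + 1) < Real.sqrt n := by
    apply Real.lt_sqrt_of_sq_lt
    rw [hn']
    linarith
  have h2 : Real.sqrt n ≤ 2 * (k : ℝ) + 5 / 2 := by
    apply Real.sqrt_le_iff.2
    constructor
    · positivity
    · rw [hn']
      nlinarith
  constructor
  · rw [Nat.floor_eq_iff (by positivity)]
    push_cast
    constructor
    · nlinarith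
    · nlinarith
  · nlinarith

/-- the disjoint union of a triangle and a pentagon -/
def K3C5 : SimpleGraph (Fin 3 ⊕ Fin 5) where
  Adj u v := (∃ i j : Fin 3, i ≠ j ∧ u = Sum.inl i ∧ v = Sum.inl j) ∨
    ∃ i j : Fin 5, (j = i + 1 ∨ i = j + 1) ∧ u = Sum.inr i ∧ v = Sum.inr j
  symm := ⟨by
    rintro u v (⟨i, j, h, rfl, rfl⟩ | ⟨i, j, h, rfl, rfl⟩)
    · exact Or.inl ⟨j, i, h.symm, rfl, rfl⟩
    · exact Or.inr ⟨j, i, h.symm, rfl, rfl⟩⟩
  loopless := ⟨by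
    rintro u (⟨i, j, h, h1, h2⟩ | ⟨i, j, h, h1, h2⟩)
    · exact h (Sum.inl_injective (h1.symm.trans h2))
    · have h3 := Sum.inr_injective (h1.symm.trans h2)
      rw [h3] at h
      exact (by decide : ∀ j : Fin 5, ¬ (j = j + 1 ∨ j = j + 1)) j h⟩

theorem adj_inl {a : Fin 3} {w : Fin 3 ⊕ Fin 5} (h : K3C5.Adj (Sum.inl a) w) :
    ∃ b, a ≠ b ∧ w = Sum.inl b := by
  rcases h with ⟨i, j, h, h1, h2⟩ | ⟨i, j, h, h1, h2⟩
  · have := Sum.inl_injective h1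
    subst this
    exact ⟨j, h, h2⟩
  · exact absurd h1 Sum.inl_ne_inr

theorem adj_inr {a : Fin 5} {w : Fin 3 ⊕ Fin 5} (h : K3C5.Adj (Sum.inr a) w) :
    ∃ b, (b = a + 1 ∨ a = b + 1) ∧ w = Sum.inr b := by
  rcases h with ⟨i, j, h, h1, h2⟩ | ⟨i, j, h, h1, h2⟩
  · exact absurd h1 Sum.inr_ne_inl
  · have := Sum.inr_injective h1
    subst this
    exact ⟨j, h, h2⟩

theorem k3 : ∀ (c : Fin 3 → Bool) (i : Fin 3) (κ : Bool),
    (∀ (a : Fin 3) (col : Bool), (∃ b, a ≠ b ∧ c b = col) ∨ (a = i ∧ κ = col)) → κ = c i := by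
  decide

theorem c5 : ∀ (c : Fin 5 → Bool) (j : Fin 5) (κ : Bool),
    (∀ (a : Fin 5) (col : Bool), (∃ b, (b = a + 1 ∨ a = b + 1) ∧ c b = col) ∨
      (a = j ∧ κ = col)) → κ = !c j := by
  decide

theorem td_K3C5 : 2 ≤ td K3C5 := by
  classical
  obtain ⟨F, _, hF, S, T, hST, hS, hT⟩ := Nat.sInf_mem (augmentSizes_nonempty (by simp) K3C5)
  change F.card = td K3C5 at hF
  by_contra hlt
  have hF1 : F.card ≤ 1 := by omega
  set H := K3C5 ⊔ SimpleGraph.fromEdgeSet (F : Set (Sym2 (Fin 3 ⊕ Fin 5))) with hH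
  have hFe : ∀ u v, H.Adj u v → K3C5.Adj u v ∨ s(u, v) ∈ F := by
    intro u v h
    rw [hH, SimpleGraph.sup_adj] at h
    rcases h with h | h
    · exact Or.inl h
    · rw [SimpleGraph.fromEdgeSet_adj] at h
      exact Or.inr (by exact_mod_cast h.1)
  let c : Fin 3 ⊕ Fin 5 → Bool := fun v => decide (v ∈ S)
  have hc : ∀ (v : Fin 3 ⊕ Fin 5) (col : Bool), ∃ w, H.Adj v w ∧ c w = col := by
    intro v col
    cases col
    · obtain ⟨w, h1, h2⟩ := hT v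
      exact ⟨w, h2, decide_eq_false (fun h => Set.disjoint_left.1 hST h h1)⟩
    · obtain ⟨w, h1, h2⟩ := hS v
      exact ⟨w, h2, decide_eq_true h1⟩
  -- an edge of `F` at the triangle
  have e3 : ∃ i : Fin 3, ∃ w, s(Sum.inl i, w) ∈ F := by
    by_contra hcon
    push Not at hcon
    have h1 := k3 (fun i => c (Sum.inl i)) 0 (!c (Sum.inl 0)) (fun a col => by
      obtain ⟨w, h1, h2⟩ := hc (Sum.inl a) col
      rcases hFe _ _ h1 with h3 | h3
      · obtain ⟨b, h4, rfl⟩ := adj_inl h3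
        exact Or.inl ⟨b, h4, h2⟩
      · exact absurd h3 (hcon a w))
    simp at h1
  have e5 : ∃ j : Fin 5, ∃ w, s(Sum.inr j, w) ∈ F := by
    by_contra hcon
    push Not at hcon
    have h1 := c5 (fun i => c (Sum.inr i)) 0 (c (Sum.inr 0)) (fun a col => by
      obtain ⟨w, h1, h2⟩ := hc (Sum.inr a) col
      rcases hFe _ _ h1 with h3 | h3
      · obtain ⟨b, h4, rfl⟩ := adj_inr h3
        exact Or.inl ⟨b, h4, h2⟩
      · exact absurd h3 (hcon a w))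
    simp at h1
  obtain ⟨i, w, hi⟩ := e3
  obtain ⟨j, w', hj⟩ := e5
  have heq : s(Sum.inl i, w) = s(Sum.inr j, w') := Finset.card_le_one.1 hF1 _ hi _ hj
  have hw : w = Sum.inr j := by
    rw [Sym2.eq_iff] at heq
    rcases heq with ⟨h1, _⟩ | ⟨_, h2⟩
    · exact absurd h1 Sum.inl_ne_inr
    · exact h2
  rw [hw] at hi
  have hall : ∀ u v, s(u, v) ∈ F → (u = Sum.inl i ∧ v = Sum.inr j) ∨
      (u = Sum.inr j ∧ v = Sum.inl i) := by
    intro u v h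
    exact Sym2.eq_iff.1 (Finset.card_le_one.1 hF1 _ h _ hi)
  have h1 := k3 (fun i => c (Sum.inl i)) i (c (Sum.inr j)) (fun a col => by
    obtain ⟨w, h1, h2⟩ := hc (Sum.inl a) col
    rcases hFe _ _ h1 with h3 | h3
    · obtain ⟨b, h4, rfl⟩ := adj_inl h3
      exact Or.inl ⟨b, h4, h2⟩
    · rcases hall _ _ h3 with ⟨h4, rfl⟩ | ⟨h4, _⟩
      · exact Or.inr ⟨Sum.inl_injective h4, h2⟩
      · exact absurd h4 Sum.inl_ne_inr)
  have h2 := c5 (fun i => c (Sum.inr i)) j (c (Sum.inl i)) (fun a col => by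
    obtain ⟨w, h1, h2⟩ := hc (Sum.inr a) col
    rcases hFe _ _ h1 with h3 | h3
    · obtain ⟨b, h4, rfl⟩ := adj_inr h3
      exact Or.inl ⟨b, h4, h2⟩
    · rcases hall _ _ h3 with ⟨h4, _⟩ | ⟨h4, rfl⟩
      · exact absurd h4 Sum.inr_ne_inl
      · exact Or.inr ⟨Sum.inr_injective h4, h2⟩)
  have h1' : c (Sum.inr j) = c (Sum.inl i) := h1
  have h2' : c (Sum.inl i) = !c (Sum.inr j) := h2
  rw [h1'] at h2'
  revert h2'
  cases c (Sum.inl i) <;> simp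

theorem deg_K3C5 (v : Fin 3 ⊕ Fin 5) : 2 ≤ (K3C5.neighborSet v).ncard := by
  rcases v with a | a
  · refine two_nbrs (a := Sum.inl (a + 1)) (b := Sum.inl (a + 2)) (fun h =>
      (by decide : ∀ a : Fin 3, a + 1 ≠ a + 2) a (Sum.inl_injective h)) ?_ ?_
    · exact Or.inl ⟨a, a + 1, (by decide : ∀ a : Fin 3, a ≠ a + 1) a, rfl, rfl⟩
    · exact Or.inl ⟨a, a + 2, (by decide : ∀ a : Fin 3, a ≠ a + 2) a, rfl, rfl⟩
  · refine two_nbrs (a := Sum.inr (a + 1)) (b := Sum.inr (a + 4)) (fun h =>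
      (by decide : ∀ a : Fin 5, a + 1 ≠ a + 4) a (Sum.inr_injective h)) ?_ ?_
    · exact Or.inr ⟨a, a + 1, Or.inl rfl, rfl, rfl⟩
    · exact Or.inr ⟨a, a + 4, Or.inr ((by decide : ∀ a : Fin 5, a = a + 4 + 1) a), rfl, rfl⟩

theorem exc_K3C5 : ((Fintype.card (Fin 3 ⊕ Fin 5) : ℝ) -
    2 * Real.sqrt (Fintype.card (Fin 3 ⊕ Fin 5))) / 4 + Real.sqrt 2 ≤ (td K3C5 : ℝ) := by
  have h1 : (2 : ℝ) ≤ td K3C5 := by exact_mod_cast td_K3C5
  have hc : (Fintype.card (Fin 3 ⊕ Fin 5) : ℝ) = 2 ^ 2 * 2 := by simp; norm_num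
  rw [hc, Real.sqrt_mul (by norm_num), Real.sqrt_sq (by norm_num)]
  linarith

end Pool.Agent.H84.MC
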