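import Mathlib
import Pool.Agent.H84.MC.Fin2

set_option autoImplicit false

/-! Consequences of the bound with the ceiling, and the examples which attain it. -/

namespace Pool.Agent.H84.MC

theorem ceil_bound {t n : ℕ}
    (h : t ≤ max ⌈(Real.sqrt n - 1) ^ 2 / 4⌉₊ (n / 5 + 1)) :
    (t : ℝ) ≤ ((n : ℝ) - 2 * Real.sqrt n) / 4 + 9 / 4 := by
  have h1 : (t : ℝ) ≤ max ((Real.sqrt n - 1) ^ 2 / 4) ((n : ℝ) / 5) + 1 := by
    rcases le_max_iff.1 h with h2 | h2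
    · have h3 : (t : ℝ) ≤ (⌈(Real.sqrt n - 1) ^ 2 / 4⌉₊ : ℝ) := by exact_mod_cast h2
      have h4 := Nat.ceil_lt_add_one (show (0 : ℝ) ≤ (Real.sqrt n - 1) ^ 2 / 4 by positivity)
      have h5 := le_max_left ((Real.sqrt n - 1) ^ 2 / 4) ((n : ℝ) / 5)
      linarith
    · have h3 : (t : ℝ) ≤ ((n / 5 : ℕ) : ℝ) + 1 := by exact_mod_cast h2
      have h4 : ((n / 5 : ℕ) : ℝ) ≤ (n : ℝ) / 5 := by
        have := @Nat.cast_div_le ℝ _ _ _ n 5
        simpa using this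
      have h5 := le_max_right ((Real.sqrt n - 1) ^ 2 / 4) ((n : ℝ) / 5)
      linarith
  exact h1.trans (max_le (n : ℝ) (by positivity)).1

theorem ceil_bound90 {t n : ℕ} (h : t ≤ ⌈(Real.sqrt n - 1) ^ 2 / 4⌉₊) :
    (t : ℝ) < ((n : ℝ) - 2 * Real.sqrt n) / 4 + 5 / 4 := by
  have hs := Real.sq_sqrt (show (0 : ℝ) ≤ n by positivity)
  have h3 : (t : ℝ) ≤ (⌈(Real.sqrt n - 1) ^ 2 / 4⌉₊ : ℝ) := by exact_mod_cast h
  have h4 := Nat.ceil_lt_add_one (show (0 : ℝ) ≤ (Real.sqrt n - 1) ^ 2 / 4 by positivity)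
  nlinarith

theorem small_K3C5
    (h : td K3C5 ≤ max ⌈(Real.sqrt (Fintype.card (Fin 3 ⊕ Fin 5)) - 1) ^ 2 / 4⌉₊
      (Fintype.card (Fin 3 ⊕ Fin 5) / 5 + 1)) :
    td K3C5 = 2 ∧ (td K3C5 : ℝ) = ((Fintype.card (Fin 3 ⊕ Fin 5) : ℝ) -
      2 * Real.sqrt (Fintype.card (Fin 3 ⊕ Fin 5))) / 4 + Real.sqrt 2 := by
  have hc : (Fintype.card (Fin 3 ⊕ Fin 5) : ℝ) = 2 ^ 2 * 2 := by simp; norm_num
  have hc' : Fintype.card (Fin 3 ⊕ Fin 5) / 5 + 1 = 2 := by simp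
  have hs : Real.sqrt (Fintype.card (Fin 3 ⊕ Fin 5)) = 2 * Real.sqrt 2 := by
    rw [hc, Real.sqrt_mul (by norm_num), Real.sqrt_sq (by norm_num)]
  have h2 := Real.sq_sqrt (show (0 : ℝ) ≤ 2 by norm_num)
  have h20 := Real.sqrt_nonneg 2
  have h3 : ⌈(Real.sqrt (Fintype.card (Fin 3 ⊕ Fin 5)) - 1) ^ 2 / 4⌉₊ ≤ 2 := by
    rw [Nat.ceil_le, hs]
    push_cast
    nlinarith
  have h4 : td K3C5 = 2 := by
    apply le_antisymm _ td_K3C5
    refine h.trans ?_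
    rw [hc']
    exact sup_le h3 le_rfl
  refine ⟨h4, ?_⟩
  rw [h4, hs, hc]
  push_cast
  ring

theorem ceil_examples : ∀ k i : ℕ, 1 ≤ k → i ≤ 1 →
    ∃ (V : Type) (_ : Fintype V) (G : SimpleGraph V),
      Fintype.card V = (2 * k + 1) ^ 2 + 3 * i ∧ G.Connected ∧
      (∀ v, 2 ≤ (G.neighborSet v).ncard) ∧
      td G = k ^ 2 + i ∧ td G = ⌈(Real.sqrt (Fintype.card V) - 1) ^ 2 / 4⌉₊ ∧
      ((Fintype.card V : ℝ) - 2 * Real.sqrt (Fintype.card V)) / 4 + (1 + i) / 4 ≤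
        (td G : ℝ) := by
  intro k i hk hi
  classical
  have hk3 : 3 ≤ 2 * k + 1 := by omega
  have hG := good hk3 (i := i)
  have hcut : 2 * Fintype.card (Fin (2 * k + 1)) *
      mm (ea hk3 : EE (2 * k + 1) i → Fin (2 * k + 1)) (eb hk3) ≤
      Fintype.card (EE (2 * k + 1) i) * (Fintype.card (Fin (2 * k + 1)) - 1) := by
    obtain ⟨f, hf⟩ := Pool.Agent.L0.maxcut (ea hk3 : EE (2 * k + 1) i → Fin (2 * k + 1)) (eb hk3)
      hG.ne
    exact (Nat.mul_le_mul_left _ (mm_le f)).trans hf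
  have hmm := mm_ex hk3 hi hcut
  have htd := td_eq hG
  rw [hmm] at htd
  have htd' : td (Sd (ea hk3 : EE (2 * k + 1) i → Fin (2 * k + 1)) (eb hk3)) = k ^ 2 + i := by
    rw [htd]
    omega
  have hcard : Fintype.card (Fin (2 * k + 1) ⊕ EE (2 * k + 1) i) = (2 * k + 1) ^ 2 + 3 * i := by
    rw [Fintype.card_sum, card_EE, Fintype.card_fin, Nat.add_sub_cancel]
    ring
  obtain ⟨hb, -⟩ := td_bound hG hcut
  refine ⟨_, inferInstance, Sd (ea hk3 : EE (2 * k + 1) i → Fin (2 * k + 1)) (eb hk3), hcard,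
    conn hk3, min_deg hG, htd', ?_, ?_⟩
  · refine le_antisymm hb ?_
    rw [Nat.ceil_le, htd', hcard]
    push_cast
    have hs : (2 * (k : ℝ) + 1) ≤ Real.sqrt ((2 * (k : ℝ) + 1) ^ 2 + 3 * i) := by
      apply Real.le_sqrt_of_sq_le
      have : (0 : ℝ) ≤ i := by positivity
      linarith
    have hs2 : Real.sqrt ((2 * (k : ℝ) + 1) ^ 2 + 3 * i) ^ 2 = (2 * (k : ℝ) + 1) ^ 2 + 3 * i :=
      Real.sq_sqrt (by positivity)
    nlinarith [show (0 : ℝ) ≤ i by positivity]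
  · rw [htd', hcard]
    push_cast
    have hs : (2 * (k : ℝ) + 1) ≤ Real.sqrt ((2 * (k : ℝ) + 1) ^ 2 + 3 * i) := by
      apply Real.le_sqrt_of_sq_le
      have : (0 : ℝ) ≤ i := by positivity
      linarith
    nlinarith [show (0 : ℝ) ≤ i by positivity]

end Pool.Agent.H84.MC
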