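import Mathlib
import Pool.Agent.H84.MC.Fin3

set_option autoImplicit false

/-! Graphs with `m ^ 2 + 3` vertices for all `m`. -/

namespace Pool.Agent.H84.MC

/-- Number of ordered pairs of distinct indices on the same side. -/
theorem count_all (m : ℕ) (c : Fin m → Bool) :
    ((m : ℤ) - 1) ^ 2 ≤ 2 * ((Finset.univ.filter
      fun p : {p : Fin m × Fin m // p.1 ≠ p.2} => c p.1.1 = c p.1.2).card : ℤ) + 1 := by
  classical
  set P := (Finset.univ : Finset (Fin m)).filter (fun i => c i = true) with hP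
  set Q := (Finset.univ : Finset (Fin m)).filter (fun i => ¬ c i = true) with hQ
  have hsum : P.card + Q.card = m := by
    have := Finset.card_filter_add_card_filter_not (s := (Finset.univ : Finset (Fin m)))
      (fun i => c i = true)
    rw [Finset.card_univ, Fintype.card_fin] at this
    exact this
  have hsub : P.offDiag ∪ Q.offDiag ⊆ (Finset.univ.filter
      fun p : {p : Fin m × Fin m // p.1 ≠ p.2} => c p.1.1 = c p.1.2).map
      (Function.Embedding.subtype _) := by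
    intro p hp
    rw [Finset.mem_union, Finset.mem_offDiag, Finset.mem_offDiag] at hp
    rw [Finset.mem_map]
    rcases hp with ⟨h1, h2, h3⟩ | ⟨h1, h2, h3⟩
    · rw [hP, Finset.mem_filter] at h1 h2
      exact ⟨⟨p, h3⟩, Finset.mem_filter.2 ⟨Finset.mem_univ _, h1.2.trans h2.2.symm⟩, rfl⟩
    · rw [hQ, Finset.mem_filter] at h1 h2
      refine ⟨⟨p, h3⟩, Finset.mem_filter.2 ⟨Finset.mem_univ _, ?_⟩, rfl⟩
      rw [Bool.not_eq_true] at h1 h2
      exact h1.2.trans h2.2.symm
  have hdis : Disjoint P.offDiag Q.offDiag := by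
    rw [Finset.disjoint_left]
    intro p h1 h2
    rw [Finset.mem_offDiag] at h1 h2
    have h3 := h1.1
    have h4 := h2.1
    rw [hP, Finset.mem_filter] at h3
    rw [hQ, Finset.mem_filter] at h4
    exact h4.2 h3.2
  have hle := Finset.card_le_card hsub
  rw [Finset.card_map, Finset.card_union_of_disjoint hdis, Finset.offDiag_card,
    Finset.offDiag_card] at hle
  generalize (Finset.univ.filter
      fun p : {p : Fin m × Fin m // p.1 ≠ p.2} => c p.1.1 = c p.1.2).card = w at *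
  generalize P.card = p at *
  generalize Q.card = q at *
  have h1 : p ≤ p * p := Nat.le_mul_self p
  have h2 : q ≤ q * q := Nat.le_mul_self q
  zify [h1, h2] at hle
  have hk : (p : ℤ) + q = m := by exact_mod_cast hsum
  nlinarith [sq_nonneg ((p : ℤ) - q)]

theorem low_all {m : ℕ} (hm : 3 ≤ m) (f : Fin m → Bool) :
    ((m : ℤ) - 1) ^ 2 + 2 ≤ 2 * (mono (ea hm : EE m 1 → Fin m) (eb hm) f : ℤ) + 1 := by
  classical
  have hex : ∃ t : Fin 3, f ⟨t.val, by omega⟩ = f ⟨(t.val + 1) % 3, by omega⟩ := by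
    by_contra hcon
    push Not at hcon
    have h0 := hcon 0
    have h1 := hcon 1
    have h2 := hcon 2
    simp only [Fin.val_zero, Fin.val_one, Fin.val_two, Nat.reduceAdd, Nat.reduceMod] at h0 h1 h2
    revert h0 h1 h2
    cases f ⟨0, by omega⟩ <;> cases f ⟨1, by omega⟩ <;> cases f ⟨2, by omega⟩ <;> simp
  obtain ⟨t, ht⟩ := hex
  have hsub : ((Finset.univ.filter
      fun p : {p : Fin m × Fin m // p.1 ≠ p.2} => f p.1.1 = f p.1.2).map
      Function.Embedding.inl) ∪ {Sum.inr (0, t)} ⊆ (Finset.univ.filter fun e : EE m 1 =>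
        f (ea hm e) = f (eb hm e)) := by
    intro e he
    rw [Finset.mem_union, Finset.mem_map, Finset.mem_singleton] at he
    rw [Finset.mem_filter]
    refine ⟨Finset.mem_univ _, ?_⟩
    rcases he with ⟨p, hp, rfl⟩ | rfl
    · exact (Finset.mem_filter.1 hp).2
    · exact ht
  have h1 := Finset.card_le_card hsub
  rw [Finset.card_union_of_disjoint, Finset.card_map, Finset.card_singleton] at h1
  · have h2 := count_all m f
    have h3 : ((Finset.univ.filter fun p : {p : Fin m × Fin m // p.1 ≠ p.2} =>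
        f p.1.1 = f p.1.2).card : ℤ) + 1 ≤ (mono (ea hm : EE m 1 → Fin m) (eb hm) f : ℤ) := by
      exact_mod_cast h1
    linarith
  · rw [Finset.disjoint_singleton_right, Finset.mem_map]
    rintro ⟨q, _, h3⟩
    exact Sum.inl_ne_inr h3

theorem all_examples : ∀ m : ℕ, 3 ≤ m → ∃ (V : Type) (_ : Fintype V) (G : SimpleGraph V),
      Fintype.card V = m ^ 2 + 3 ∧ G.Connected ∧
      (∀ v, 2 ≤ (G.neighborSet v).ncard) ∧
      td G = (m - 1) ^ 2 / 4 + 1 ∧ td G = ⌈(Real.sqrt (Fintype.card V) - 1) ^ 2 / 4⌉₊ := by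
  intro m hm
  classical
  have hG := good hm (i := 1)
  have hcut : 2 * Fintype.card (Fin m) * mm (ea hm : EE m 1 → Fin m) (eb hm) ≤
      Fintype.card (EE m 1) * (Fintype.card (Fin m) - 1) := by
    obtain ⟨f, hf⟩ := Pool.Agent.L0.maxcut (ea hm : EE m 1 → Fin m) (eb hm) hG.ne
    exact (Nat.mul_le_mul_left _ (mm_le f)).trans hf
  obtain ⟨hb, -⟩ := td_bound hG hcut
  have htd := td_eq hG
  have hcard : Fintype.card (Fin m ⊕ EE m 1) = m ^ 2 + 3 := by
    rw [Fintype.card_sum, card_EE, Fintype.card_fin]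
    obtain ⟨l, rfl⟩ : ∃ l, m = l + 1 := ⟨m - 1, by omega⟩
    rw [Nat.add_sub_cancel]
    ring
  obtain ⟨l, hl⟩ : ∃ l, l = m - 1 := ⟨_, rfl⟩
  have hlow : l ^ 2 / 4 + 1 ≤ td (Sd (ea hm : EE m 1 → Fin m) (eb hm)) := by
    obtain ⟨f, hf⟩ := mm_mem (a := (ea hm : EE m 1 → Fin m)) (b := eb hm)
    have h1 := low_all hm f
    rw [hf] at h1
    have h2 : ((m : ℤ) - 1) = (l : ℤ) := by omega
    rw [h2] at h1
    have h3 : l ^ 2 + 2 ≤ 2 * mm (ea hm : EE m 1 → Fin m) (eb hm) + 1 := by exact_mod_cast h1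
    omega
  have hup : ⌈(Real.sqrt (Fintype.card (Fin m ⊕ EE m 1)) - 1) ^ 2 / 4⌉₊ ≤ l ^ 2 / 4 + 1 := by
    rw [Nat.ceil_le, hcard]
    push_cast
    have hs := Real.sq_sqrt (show (0 : ℝ) ≤ (m : ℝ) ^ 2 + 3 by positivity)
    have h1 : (m : ℝ) ≤ Real.sqrt ((m : ℝ) ^ 2 + 3) := by
      apply Real.le_sqrt_of_sq_le
      linarith
    have h2 : (l : ℝ) = (m : ℝ) - 1 := by
      rw [hl, Nat.cast_sub (by omega), Nat.cast_one]
    have h3 : l ^ 2 ≤ 4 * (l ^ 2 / 4) + 1 := by
      rcases Nat.even_or_odd' l with ⟨x, rfl | rfl⟩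
      · have : (2 * x) ^ 2 = 4 * x ^ 2 := by ring
        omega
      · have : (2 * x + 1) ^ 2 = 4 * (x ^ 2 + x) + 1 := by ring
        omega
    have h4 : (l : ℝ) ^ 2 ≤ 4 * ((l ^ 2 / 4 : ℕ) : ℝ) + 1 := by exact_mod_cast h3
    rw [h2] at h4
    nlinarith
  refine ⟨_, inferInstance, Sd (ea hm : EE m 1 → Fin m) (eb hm), hcard, conn hm, min_deg hG,
    ?_, ?_⟩
  · rw [← hl]
    exact le_antisymm (hb.trans hup) hlow
  · exact le_antisymm hb (hup.trans hlow)

end Pool.Agent.H84.MC
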